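import Mathlib

/-!
Contour shift between two vertical lines (helper file for MP_bd232a_nt, part F).
-/

open Complex MeasureTheory Set Filter Topology

namespace Pool.Agent.Helper83.BDF

/-- Shift of a vertical line of integration: `g` is holomorphic near the closed strip `a ≤ Re s ≤ b` and tends to
zero at `± i ∞` uniformly in the strip. -/
theorem shift (g : ℂ → ℂ) {a b : ℝ} (hab : a ≤ b)
    (hd : ∀ s : ℂ, a ≤ s.re → s.re ≤ b → DifferentiableAt ℂ g s)
    (φ : ℝ → ℝ) (hφ : Tendsto φ atTop (𝓝 0))
    (hb : ∀ᶠ T in atTop, ∀ s : ℂ, a ≤ s.re → s.re ≤ b → |s.im| = T → ‖g s‖ ≤ φ T)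
    (ia : Integrable (fun t : ℝ => g (a + t * I))) (ib : Integrable (fun t : ℝ => g (b + t * I))) :
    ∫ t : ℝ, g (a + t * I) = ∫ t : ℝ, g (b + t * I) := by
  -- the integrals over [-T, T]
  have ha : Tendsto (fun T : ℝ => ∫ t in (-T)..T, g (a + t * I)) atTop (𝓝 (∫ t : ℝ, g (a + t * I))) :=
    intervalIntegral_tendsto_integral ia tendsto_neg_atTop_atBot tendsto_id
  have hb' : Tendsto (fun T : ℝ => ∫ t in (-T)..T, g (b + t * I)) atTop (𝓝 (∫ t : ℝ, g (b + t * I))) :=
    intervalIntegral_tendsto_integral ib tendsto_neg_atTop_atBot tendsto_id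
  have hdiff : Tendsto (fun T : ℝ => (∫ t in (-T)..T, g (b + t * I)) - ∫ t in (-T)..T, g (a + t * I)) atTop
      (𝓝 0) := by
    have key : ∀ᶠ T in atTop, ‖(∫ t in (-T)..T, g (b + t * I)) - ∫ t in (-T)..T, g (a + t * I)‖
        ≤ 2 * (φ T * |b - a|) := by
      filter_upwards [hb, eventually_ge_atTop 0] with T hT hT0
      have hrect := Complex.integral_boundary_rect_eq_zero_of_differentiableOn g
        ((a : ℂ) + ((-T : ℝ) : ℂ) * I) ((b : ℂ) + (T : ℂ) * I) (by
          intro s hs
          rw [mem_reProdIm] at hs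
          simp only [add_re, ofReal_re, mul_re, I_re, mul_zero, ofReal_im, I_im, mul_one, sub_self, add_zero,
            uIcc_of_le hab, mem_Icc] at hs
          exact (hd s hs.1.1 hs.1.2).differentiableWithinAt)
      simp only [add_re, ofReal_re, mul_re, I_re, mul_zero, ofReal_im, I_im, mul_one, sub_self, add_zero,
        add_im, mul_im, zero_add, smul_eq_mul] at hrect
      have h1 : ‖∫ x in a..b, g (x + ((-T : ℝ) : ℂ) * I)‖ ≤ φ T * |b - a| := by
        apply intervalIntegral.norm_integral_le_of_norm_le_const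
        intro x hx
        rw [uIoc_of_le hab] at hx
        apply hT
        · simp; exact hx.1.le
        · simp; exact hx.2
        · simp [abs_of_nonneg hT0]
      have h2 : ‖∫ x in a..b, g (x + (T : ℂ) * I)‖ ≤ φ T * |b - a| := by
        apply intervalIntegral.norm_integral_le_of_norm_le_const
        intro x hx
        rw [uIoc_of_le hab] at hx
        apply hT
        · simp; exact hx.1.le
        · simp; exact hx.2
        · simp [abs_of_nonneg hT0]
      have h3 : I * ((∫ t in (-T)..T, g (b + t * I)) - ∫ t in (-T)..T, g (a + t * I)) =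
          (∫ x in a..b, g (x + (T : ℂ) * I)) - ∫ x in a..b, g (x + ((-T : ℝ) : ℂ) * I) := by
        linear_combination hrect
      have h4 : ‖(∫ t in (-T)..T, g (b + t * I)) - ∫ t in (-T)..T, g (a + t * I)‖ =
          ‖(∫ x in a..b, g (x + (T : ℂ) * I)) - ∫ x in a..b, g (x + ((-T : ℝ) : ℂ) * I)‖ := by
        rw [← h3, norm_mul, norm_I, one_mul]
      rw [h4]
      refine (norm_sub_le _ _).trans ?_
      linarith
    have hz : Tendsto (fun T : ℝ => 2 * (φ T * |b - a|)) atTop (𝓝 0) := by
      have := (hφ.mul_const |b - a|).const_mul 2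
      simpa using this
    exact squeeze_zero_norm' key hz
  have h5 := (hb'.sub ha)
  have h6 := tendsto_nhds_unique h5 hdiff
  exact (sub_eq_zero.mp h6).symm

end Pool.Agent.Helper83.BDF
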