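import Pool.Agent.Helper83.BDF.EStat
import Pool.Agent.Helper23.BDF5.Final

/-!
Block F5 of MP_bd232a_nt (part F): `LatticeE → SumBound H`.

PROOF. Write `y = n^{1/3}`. Take a smooth `W : ℝ → ℝ`, compactly supported in `(0,∞)` (e.g. in `(1/2, 4)`), with `∑_{k ≥ 0} W(y/2^k) = 1` for `y ≥ 1`, and a
smooth `W1`, compactly supported in `(0,∞)`, with `W1 = 1` on the support of `W`. Let `G(x) = w(x) phi(x)^{-1} W(phi(x)^{1/2})` (`phi(x) = |x1 x2 x3|^{2/3}`; smooth, compactly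
supported off the coordinate planes by `w_smooth`, `w_supp`, `w_hom`). By `coeff`, for `X = 2^k`,
 `∑_n hterm H d n * W(n^{1/3}/X) = (1/2) X^{-2} ∑_y G(X^{-1} A y) g(phi(X^{-1} A y)) exp(-2 pi i κ0 phi(A y))`,
 `κ0 = K3^{-2/3} cos(2d/3)/(2 pi)`, `g(t) = W1(sqrt t) exp(- mu t)`, `mu = K3^{-2/3} sin(2d/3) X^2`.
 Fourier inversion: `g(t) = ∫ ghat(xi) e(xi t) d xi`, `|ghat(xi)| <= C (1+|xi|)^{-3}/(1+mu)` (two or three integrations by parts: all derivatives of g are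
 `<= C (1+mu)^k exp(-c mu)`). So the sum over `y` is `∫ ghat(xi) [∑_y G(X^{-1}Ay) e(-(κ0 - xi/X^2) phi(Ay))] d xi`. For `|xi| <= X` and `X >= X0`:
 `κ0 - xi/X^2` is in `[κ1, κ2]`, `LatticeE` for `conj G` gives `<= C X^{5/2-δ}`; for `|xi| > X` the trivial bound `C X^3` and `∫_{|xi|>X} |ghat| <= C X^{-2}/(1+mu)`.
 Total: `|∑_n hterm H d n W(n^{1/3}/X)| <= C X^{1/2-δ}/(1 + d X^2)` (wlog `δ <= 1/4`), for `X < X0` trivially `<= C`.
 Sum over `X = 2^k`: `∑_k 2^{k(1/2-δ)}/(1+d 4^k) <= C d^{-1/4+δ/2}`.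
 (`d <= 1`: `sin(2d/3) >= c d`, `cos(2d/3) >= c`.)
-/

open Complex MeasureTheory Set Filter Topology
open scoped ContDiff

namespace Pool.Agent.Helper83.BDF

open Pool.Agent.Helper19.BD

theorem sumBound (H : HeckeF) (hE : LatticeE) : SumBound H :=
  Helper23.BDF5.sumBound' H hE

end Pool.Agent.Helper83.BDF
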