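import Pool.Agent.Helper83.BDF.EStat
import Pool.Agent.Helper19.BD.EGlobal

/-!
Block F6 of MP_bd232a_nt (part F): `es_global` implies `LatticeE` (octants, positive coprime functional).
-/

open Complex MeasureTheory Set Filter Topology
open scoped ContDiff Classical

namespace Pool.Agent.Helper83.BDF

open Pool.Agent.Helper19.BD

lemma floor_div_tendsto (x : Fin 3 → ℝ) :
    Tendsto (fun n : ℕ => (fun i => ((⌊(n : ℝ) * x i⌋ : ℤ) : ℝ) / (n : ℝ))) atTop (𝓝 x) := by
  rw [tendsto_pi_nhds]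
  intro i
  have h1 : Tendsto (fun n : ℕ => x i - 1 / (n : ℝ)) atTop (𝓝 (x i)) := by
    have := (tendsto_const_nhds (x := x i) (f := (atTop : Filter ℕ))).sub (tendsto_const_div_atTop_nhds_zero_nat (1 : ℝ))
    simpa using this
  refine tendsto_of_tendsto_of_tendsto_of_le_of_le' h1 tendsto_const_nhds ?_ ?_
  · filter_upwards [eventually_gt_atTop 0] with n hn
    have hn' : (0 : ℝ) < n := by exact_mod_cast hn
    rw [sub_le_iff_le_add, ← add_div, le_div_iff₀ hn']
    have := Int.lt_floor_add_one ((n : ℝ) * x i)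
    linarith
  · filter_upwards [eventually_gt_atTop 0] with n hn
    have hn' : (0 : ℝ) < n := by exact_mod_cast hn
    rw [div_le_iff₀ hn']
    have := Int.floor_le ((n : ℝ) * x i)
    linarith

lemma exists_coprime {S : Set (Fin 3 → ℝ)} (ho : IsOpen S) (hs : ∀ t : ℝ, 0 < t → ∀ x ∈ S, t • x ∈ S) (hne : S.Nonempty) :
    ∃ c : Fin 3 → ℤ, (fun i => (c i : ℝ)) ∈ S ∧ IsCoprime (c 0) (c 1) := by
  obtain ⟨x, hx⟩ := hne
  -- an integer vector in the cone
  obtain ⟨c', hc'⟩ : ∃ c : Fin 3 → ℤ, (fun i => (c i : ℝ)) ∈ S := by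
    have h1 := (floor_div_tendsto x).eventually (ho.mem_nhds hx)
    obtain ⟨n, hn, hn0⟩ := (h1.and (eventually_gt_atTop 0)).exists
    have hn' : (0 : ℝ) < n := by exact_mod_cast hn0
    refine ⟨fun i => ⌊(n : ℝ) * x i⌋, ?_⟩
    have h2 := hs n hn' _ hn
    convert h2 using 1
    ext i
    simp only [Pi.smul_apply, smul_eq_mul]
    field_simp
  -- perturbation
  have hpert : ∀ e : Fin 3 → ℝ, ∀ᶠ m : ℕ in atTop, ((m : ℝ) • (fun i => (c' i : ℝ)) + e) ∈ S := by
    intro e
    have h1 : Tendsto (fun m : ℕ => (fun i => (c' i : ℝ)) + (1 / (m : ℝ)) • e) atTop (𝓝 (fun i => (c' i : ℝ))) := by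
      have h2 : Tendsto (fun m : ℕ => (1 / (m : ℝ)) • e) atTop (𝓝 ((0 : ℝ) • e)) :=
        (tendsto_const_div_atTop_nhds_zero_nat (1 : ℝ)).smul_const e
      rw [zero_smul] at h2
      simpa using (tendsto_const_nhds (x := (fun i => (c' i : ℝ)))).add h2
    filter_upwards [h1.eventually (ho.mem_nhds hc'), eventually_gt_atTop 0] with m hm hm0
    have hm' : (0 : ℝ) < m := by exact_mod_cast hm0
    have h3 := hs m hm' _ hm
    convert h3 using 1
    rw [smul_add, smul_smul, mul_one_div_cancel hm'.ne', one_smul]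
  rcases eq_or_ne (c' 1) 0 with h0 | h0
  · obtain ⟨m, hm⟩ := (hpert ![0, 1, 0]).exists
    refine ⟨fun i => (m : ℤ) * c' i + (![0, 1, 0] : Fin 3 → ℤ) i, ?_, ?_⟩
    · convert hm using 1
      ext i
      fin_cases i <;> simp
    · simp [h0, isCoprime_one_right]
  · obtain ⟨m0, hm0⟩ := (hpert ![1, 0, 0]).exists_forall_of_atTop
    set k : ℕ := (m0 + 1) * (c' 1).natAbs ^ 2 with hk
    have hkm : m0 ≤ k := by
      have h1 : 1 ≤ (c' 1).natAbs ^ 2 := Nat.one_le_iff_ne_zero.mpr (pow_ne_zero _ (Int.natAbs_ne_zero.mpr h0))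
      calc m0 ≤ (m0 + 1) * 1 := by omega
        _ ≤ _ := Nat.mul_le_mul_left _ h1
    have hkz : (k : ℤ) = (m0 + 1) * (c' 1) ^ 2 := by
      rw [hk]
      push_cast
      rw [sq_abs]
    refine ⟨fun i => (k : ℤ) * c' i + (![1, 0, 0] : Fin 3 → ℤ) i, ?_, ?_⟩
    · have := hm0 k hkm
      convert this using 1
      ext i
      fin_cases i <;> simp
    · simp only [Matrix.cons_val_zero, Matrix.cons_val_one, add_zero]
      rw [hkz]
      have e1 : IsCoprime ((m0 + 1) * (c' 1) ^ 2 * c' 0 + 1) ((m0 : ℤ) + 1) := by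
        have h := (isCoprime_one_left (R := ℤ) (x := (m0 : ℤ) + 1)).add_mul_left_left ((c' 1) ^ 2 * c' 0)
        have he : ((m0 + 1) * (c' 1) ^ 2 * c' 0 + 1 : ℤ) = 1 + ((m0 : ℤ) + 1) * ((c' 1) ^ 2 * c' 0) := by ring
        rw [he]
        exact h
      have e2 : IsCoprime ((m0 + 1) * (c' 1) ^ 2 * c' 0 + 1) (c' 1) := by
        have h := (isCoprime_one_left (R := ℤ) (x := c' 1)).add_mul_left_left (((m0 : ℤ) + 1) * (c' 1) * c' 0)
        have he : ((m0 + 1) * (c' 1) ^ 2 * c' 0 + 1 : ℤ) = 1 + (c' 1) * (((m0 : ℤ) + 1) * (c' 1) * c' 0) := by ring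
        rw [he]
        exact h
      exact (e1.mul_right (e2.pow_right (n := 2))).mul_right e2

/-- sign of a Boolean -/
def sgb (b : Bool) : ℝ := if b then 1 else -1

lemma sgb_sq (b : Bool) : sgb b * sgb b = 1 := by cases b <;> simp [sgb]
lemma sgb_ne (b : Bool) : sgb b ≠ 0 := by cases b <;> simp [sgb]
lemma abs_sgb (b : Bool) : |sgb b| = 1 := by cases b <;> simp [sgb]

def oct (σ : Fin 3 → Bool) : Set (Fin 3 → ℝ) := {x | ∀ j, 0 < sgb (σ j) * x j}

lemma isOpen_oct (σ : Fin 3 → Bool) : IsOpen (oct σ) := by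
  unfold oct
  rw [ofPred_forall]
  apply isOpen_iInter_of_finite
  intro j
  exact isOpen_lt continuous_const (by fun_prop)

lemma contDiff_oct {G : (Fin 3 → ℝ) → ℂ} (hG : ContDiff ℝ ∞ G) (hs : tsupport G ⊆ {x | ∀ j, x j ≠ 0}) (σ : Fin 3 → Bool) :
    ContDiff ℝ ∞ ((oct σ).indicator G) := by
  rw [contDiff_iff_contDiffAt]
  intro x
  by_cases hx : x ∈ tsupport G
  · have hne := hs hx
    by_cases hxo : x ∈ oct σ
    · refine hG.contDiffAt.congr_of_eventuallyEq ?_
      filter_upwards [(isOpen_oct σ).mem_nhds hxo] with y hy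
      exact Set.indicator_of_mem hy _
    · have h1 : ∃ j, sgb (σ j) * x j < 0 := by
        unfold oct at hxo
        simp only [mem_ofPred_eq, not_forall, not_lt] at hxo
        obtain ⟨j, hj⟩ := hxo
        exact ⟨j, lt_of_le_of_ne hj (mul_ne_zero (sgb_ne _) (hne j))⟩
      obtain ⟨j, hj⟩ := h1
      refine (contDiffAt_const (c := (0 : ℂ))).congr_of_eventuallyEq ?_
      have h2 : {y : Fin 3 → ℝ | sgb (σ j) * y j < 0} ∈ 𝓝 x :=
        (isOpen_lt (by fun_prop) continuous_const).mem_nhds hj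
      filter_upwards [h2] with y hy
      apply Set.indicator_of_notMem
      intro hyo
      exact absurd (hyo j) (not_lt.mpr (le_of_lt hy))
  · refine (contDiffAt_const (c := (0 : ℂ))).congr_of_eventuallyEq ?_
    filter_upwards [(isClosed_tsupport G).isOpen_compl.mem_nhds hx] with y hy
    rw [Set.indicator_apply]
    split_ifs
    · exact image_eq_zero_of_notMem_tsupport hy
    · rfl

lemma tsupport_oct {G : (Fin 3 → ℝ) → ℂ} (hs : tsupport G ⊆ {x | ∀ j, x j ≠ 0}) (σ : Fin 3 → Bool) :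
    tsupport ((oct σ).indicator G) ⊆ oct σ := by
  intro x hx
  have h1 : x ∈ tsupport G := by
    refine closure_mono ?_ hx
    intro y hy
    rw [Function.mem_support] at hy ⊢
    intro h
    apply hy
    rw [Set.indicator_apply]
    split_ifs <;> simp [h]
  have h2 : x ∈ closure (oct σ) := by
    refine closure_mono ?_ hx
    intro y hy
    by_contra hcon
    exact hy (Set.indicator_of_notMem hcon _)
  intro j
  have h3 : closure (oct σ) ⊆ {y | 0 ≤ sgb (σ j) * y j} := by
    apply closure_minimal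
    · intro y hy
      exact (hy j).le
    · exact isClosed_le continuous_const (by fun_prop)
  exact lt_of_le_of_ne (h3 h2) (Ne.symm (mul_ne_zero (sgb_ne _) (hs h1 j)))

lemma hasCompactSupport_oct {G : (Fin 3 → ℝ) → ℂ} (hc : HasCompactSupport G) (σ : Fin 3 → Bool) :
    HasCompactSupport ((oct σ).indicator G) := by
  apply hc.mono
  intro y hy
  rw [Function.mem_support] at hy ⊢
  intro h
  apply hy
  rw [Set.indicator_apply]
  split_ifs <;> simp [h]

lemma sum_oct {G : (Fin 3 → ℝ) → ℂ} (hs : tsupport G ⊆ {x | ∀ j, x j ≠ 0}) (x : Fin 3 → ℝ) :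
    G x = ∑ σ : Fin 3 → Bool, (oct σ).indicator G x := by
  by_cases hx : x ∈ tsupport G
  · have hne := hs hx
    rw [Finset.sum_eq_single (fun j => decide (0 < x j))]
    · rw [Set.indicator_of_mem]
      intro j
      unfold sgb
      by_cases h : 0 < x j
      · simp [h]
      · have : x j < 0 := lt_of_le_of_ne (not_lt.mp h) (hne j)
        simp [h, this]
    · intro σ _ hσ
      apply Set.indicator_of_notMem
      intro hmem
      apply hσ
      ext j
      have := hmem j
      unfold sgb at this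
      cases hb : σ j
      · rw [hb] at this
        simp only [Bool.false_eq_true, if_false, neg_mul, one_mul, Left.neg_pos_iff] at this
        symm
        simpa using this.le
      · rw [hb] at this
        simp only [if_true, one_mul] at this
        symm
        simpa using this
    · intro h
      exact absurd (Finset.mem_univ _) h
  · have h0 : G x = 0 := image_eq_zero_of_notMem_tsupport hx
    rw [h0]
    symm
    apply Finset.sum_eq_zero
    intro σ _
    rw [Set.indicator_apply]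
    split_ifs
    · exact h0
    · rfl

/-- the lattice points in a compact set are finite in number -/
lemma finite_lattice {A : Matrix (Fin 3) (Fin 3) ℝ} (hA : A.det ≠ 0) {K : Set (Fin 3 → ℝ)} (hK : IsCompact K) {X : ℝ} (hX : 0 < X) :
    {y : Fin 3 → ℤ | X⁻¹ • lp A y ∈ K}.Finite := by
  have hU : IsUnit A.det := isUnit_iff_ne_zero.mpr hA
  -- image of `K` under `x ↦ X A⁻¹ x`
  have hK' : IsCompact ((fun x : Fin 3 → ℝ => X • (A⁻¹).mulVec x) '' K) := by
    apply hK.image
    have h0 : Continuous fun x : Fin 3 → ℝ => (A⁻¹).mulVec x := Continuous.matrix_mulVec continuous_const continuous_id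
    exact h0.const_smul X
  have hemb : IsClosedEmbedding (fun y : Fin 3 → ℤ => fun i => (y i : ℝ)) := Isometry.isClosedEmbedding fun x1 => congrFun rfl
  have h1 := (hemb.isCompact_preimage hK').finite_of_discrete
  refine h1.subset ?_
  intro y hy
  refine ⟨X⁻¹ • lp A y, hy, ?_⟩
  simp only [lp]
  rw [Matrix.mulVec_smul, Matrix.mulVec_mulVec, Matrix.nonsing_inv_mul A hU, Matrix.one_mulVec, smul_smul,
    mul_inv_cancel₀ hX.ne', one_smul]

lemma geo_one {A : Matrix (Fin 3) (Fin 3) ℝ} (hA : A.det ≠ 0) {G : (Fin 3 → ℝ) → ℂ} (hG : ContDiff ℝ ∞ G)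
    (hc : HasCompactSupport G) (hs : tsupport G ⊆ {x | ∀ j, x j ≠ 0}) {κ₁ κ₂ : ℝ} (hκ : 0 < κ₁) (hκ₂ : κ₁ ≤ κ₂) (σ : Fin 3 → Bool) :
    ∃ C : ℝ, ∀ X κ : ℝ, 1 ≤ X → κ₁ ≤ κ → κ ≤ κ₂ →
      ‖∑' y : Fin 3 → ℤ, (oct σ).indicator G (X⁻¹ • lp A y) * cexp (2 * Real.pi * I * ((κ * phi (lp A y) : ℝ) : ℂ))‖
        ≤ C * X ^ (249 / 100 : ℝ) := by
  set Dg : Matrix (Fin 3) (Fin 3) ℝ := Matrix.diagonal (fun i => sgb (σ i)) with hDg
  set M : Matrix (Fin 3) (Fin 3) ℝ := Dg * A with hM
  have hMdet : M.det ≠ 0 := by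
    rw [hM, Matrix.det_mul, hDg, Matrix.det_diagonal]
    exact mul_ne_zero (Finset.prod_ne_zero_iff.mpr fun i _ => sgb_ne _) hA
  have hMU : IsUnit M.det := isUnit_iff_ne_zero.mpr hMdet
  -- the cone of positive functionals
  obtain ⟨c, hcS, hcop⟩ := exists_coprime (S := {c : Fin 3 → ℝ | ∀ j, 0 < Matrix.vecMul c M⁻¹ j})
    (by
      rw [ofPred_forall]
      apply isOpen_iInter_of_finite
      intro j
      apply isOpen_lt continuous_const
      exact (continuous_apply j).comp (Continuous.matrix_vecMul continuous_id continuous_const))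
    (by
      intro t ht x hx j
      rw [Matrix.smul_vecMul, Pi.smul_apply, smul_eq_mul]
      exact mul_pos ht (hx j))
    (by
      refine ⟨Matrix.vecMul (fun _ => 1) M, fun j => ?_⟩
      rw [Matrix.vecMul_vecMul, Matrix.mul_nonsing_inv M hMU, Matrix.vecMul_one]
      exact one_pos)
  obtain ⟨a, b, hab⟩ := hcop
  set U : Matrix (Fin 3) (Fin 3) ℤ := !![a, -c 1, -(a * c 2); b, c 0, -(b * c 2); 0, 0, 1] with hU
  set V : Matrix (Fin 3) (Fin 3) ℤ := !![c 0, c 1, c 2; -b, a, 0; 0, 0, 1] with hV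
  have hVU : V * U = 1 := by
    rw [hV, hU]
    ext i j
    fin_cases i <;> fin_cases j <;> simp [Matrix.mul_apply, Fin.sum_univ_three] <;>
      first
        | linear_combination hab
        | linear_combination (0 : ℤ) * hab
        | linear_combination (-(c 2)) * hab
  have hUV : U * V = 1 := mul_eq_one_comm.mp hVU
  set UR : Matrix (Fin 3) (Fin 3) ℝ := U.map (Int.castRingHom ℝ) with hUR
  set VR : Matrix (Fin 3) (Fin 3) ℝ := V.map (Int.castRingHom ℝ) with hVR
  have hVUR : VR * UR = 1 := by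
    rw [hVR, hUR, ← Matrix.map_mul, hVU]
    simp
  have hUVR : UR * VR = 1 := mul_eq_one_comm.mp hVUR
  have hURdet : UR.det ≠ 0 := by
    intro h
    have := congrArg Matrix.det hVUR
    rw [Matrix.det_mul, h, mul_zero, Matrix.det_one] at this
    exact zero_ne_one this
  -- the geometry
  set N : Matrix (Fin 3) (Fin 3) ℝ := M * UR with hN
  have hNdet : N.det ≠ 0 := by
    rw [hN, Matrix.det_mul]
    exact mul_ne_zero hMdet hURdet
  let g : Geo :=
    { al := fun i => N i 0
      b1 := fun i => N i 1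
      b2 := fun i => N i 2
      det_ne := by
        have : Matrix.of ![fun i => N i 0, fun i => N i 1, fun i => N i 2] = N.transpose := by
          ext i j
          fin_cases i <;> simp [Matrix.transpose_apply]
        rw [this, Matrix.det_transpose]
        exact hNdet }
  have hlam : ∀ (i : Fin 3) (z : Fin 3 → ℝ), g.lam i z = N.mulVec z i := by
    intro i z
    simp only [Geo.lam, Matrix.mulVec, dotProduct, Fin.sum_univ_three, g]
  -- lam in terms of the lattice point
  have hlam2 : ∀ (i : Fin 3) (z : Fin 3 → ℝ), g.lam i z = sgb (σ i) * (A * UR).mulVec z i := by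
    intro i z
    rw [hlam, hN, hM, Matrix.mul_assoc, ← Matrix.mulVec_mulVec, hDg, Matrix.mulVec_diagonal]
  have hz0 : ∀ z : Fin 3 → ℝ, (∀ i, 0 < g.lam i z) → 0 < z 0 := by
    intro z hz
    have h1 : z 0 = VR.mulVec (UR.mulVec z) 0 := by
      rw [Matrix.mulVec_mulVec, hVUR, Matrix.one_mulVec]
    have h2 : VR.mulVec (UR.mulVec z) 0 = dotProduct (fun i => (c i : ℝ)) (UR.mulVec z) := by
      simp only [hVR, hV, Matrix.mulVec, dotProduct, Fin.sum_univ_three]
      simp
    have h3 : (fun i => (c i : ℝ)) = Matrix.vecMul (Matrix.vecMul (fun i => (c i : ℝ)) M⁻¹) M := by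
      rw [Matrix.vecMul_vecMul, Matrix.nonsing_inv_mul M hMU, Matrix.vecMul_one]
    rw [h1, h2, h3, ← Matrix.dotProduct_mulVec, Matrix.mulVec_mulVec]
    have h4 : ∀ i, 0 < (M * UR).mulVec z i := by
      intro i
      have := hz i
      rwa [hlam] at this
    simp only [dotProduct, Fin.sum_univ_three]
    have e0 := mul_pos (hcS 0) (h4 0)
    have e1 := mul_pos (hcS 1) (h4 1)
    have e2 := mul_pos (hcS 2) (h4 2)
    linarith
  -- the test function
  set Ψ : (Fin 3 → ℝ) → ℂ := fun z => (oct σ).indicator G ((A * UR).mulVec z) with hΨ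
  have hAUdet : (A * UR).det ≠ 0 := by
    rw [Matrix.det_mul]; exact mul_ne_zero hA hURdet
  have hAUU : IsUnit (A * UR).det := isUnit_iff_ne_zero.mpr hAUdet
  have hlin : ContDiff ℝ ∞ (fun z : Fin 3 → ℝ => (A * UR).mulVec z) := by
    have : (fun z : Fin 3 → ℝ => (A * UR).mulVec z) = ⇑(Matrix.toLin' (A * UR)).toContinuousLinearMap := by
      ext z i
      simp
    rw [this]
    exact ContinuousLinearMap.contDiff _
  have hΨs : ContDiff ℝ ∞ Ψ := (contDiff_oct hG hs σ).comp hlin
  let e : (Fin 3 → ℝ) ≃ₜ (Fin 3 → ℝ) :=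
    { toFun := fun z => (A * UR).mulVec z
      invFun := fun x => ((A * UR)⁻¹).mulVec x
      left_inv := fun z => by
        simp only
        rw [Matrix.mulVec_mulVec, Matrix.nonsing_inv_mul _ hAUU, Matrix.one_mulVec]
      right_inv := fun z => by
        simp only
        rw [Matrix.mulVec_mulVec, Matrix.mul_nonsing_inv _ hAUU, Matrix.one_mulVec]
      continuous_toFun := Continuous.matrix_mulVec continuous_const continuous_id
      continuous_invFun := Continuous.matrix_mulVec continuous_const continuous_id }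
  have hΨe : Ψ = ((oct σ).indicator G) ∘ e := rfl
  have hΨc : HasCompactSupport Ψ := by
    rw [hΨe]
    exact (hasCompactSupport_oct hc σ).comp_homeomorph e
  have hΨt : tsupport Ψ ⊆ {x | 0 < x 0 ∧ ∀ i, 0 < g.lam i x} := by
    rw [hΨe, tsupport_comp_eq_preimage]
    intro z hz
    have h1 := tsupport_oct hs σ hz
    have h2 : ∀ i, 0 < g.lam i z := by
      intro i
      rw [hlam2]
      exact h1 i
    exact ⟨hz0 z h2, h2⟩
  obtain ⟨C, hC⟩ := es_global g κ₁ κ₂ hκ hκ₂ Ψ hΨs hΨc hΨt
  refine ⟨C, fun X κ hX h1 h2 => ?_⟩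
  have hX0 : 0 < X := by linarith
  refine le_trans (le_of_eq ?_) (hC X κ hX h1 h2)
  congr 1
  unfold ES
  -- reindex
  let ez : (Fin 3 → ℤ) ≃ (Fin 3 → ℤ) :=
    { toFun := fun z => U.mulVec z
      invFun := fun y => V.mulVec y
      left_inv := fun z => by
        simp only
        rw [Matrix.mulVec_mulVec, hVU, Matrix.one_mulVec]
      right_inv := fun z => by
        simp only
        rw [Matrix.mulVec_mulVec, hUV, Matrix.one_mulVec] }
  rw [← ez.tsum_eq]
  congr 1
  ext z
  have hcast : (fun i => ((ez z i : ℤ) : ℝ)) = UR.mulVec (fun i => (z i : ℝ)) := by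
    ext i
    simp only [ez, Equiv.coe_fn_mk, hUR, Matrix.mulVec, dotProduct, Fin.sum_univ_three, Matrix.map_apply]
    push_cast
    simp
  have hlp : lp A (ez z) = (A * UR).mulVec (fun i => (z i : ℝ)) := by
    unfold lp
    rw [hcast, Matrix.mulVec_mulVec]
  have harg : (A * UR).mulVec (fun i => (z i : ℝ) / X) = X⁻¹ • lp A (ez z) := by
    rw [hlp, ← Matrix.mulVec_smul]
    congr 1
    ext i
    simp [div_eq_inv_mul]
  have hΨz : Ψ (fun i => (z i : ℝ) / X) = (oct σ).indicator G (X⁻¹ • lp A (ez z)) := by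
    rw [hΨ]
    simp only
    rw [harg]
  rw [hΨz]
  by_cases hoct : X⁻¹ • lp A (ez z) ∈ oct σ
  · congr 1
    have hpos : ∀ i, 0 < g.lam i (fun i => (z i : ℝ)) := by
      intro i
      rw [hlam2, ← hlp]
      have h3 := hoct i
      simp only [Pi.smul_apply, smul_eq_mul] at h3
      have h4 : sgb (σ i) * (X⁻¹ * lp A (ez z) i) = X⁻¹ * (sgb (σ i) * lp A (ez z) i) := by ring
      rw [h4] at h3
      exact (pos_iff_pos_of_mul_pos h3).mp (inv_pos.mpr hX0)
    have hphi : g.phi (fun i => (z i : ℝ)) = phi (lp A (ez z)) := by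
      unfold Geo.phi phi
      congr 1
      have h5 : ∏ i, g.lam i (fun i => (z i : ℝ)) = (∏ i, sgb (σ i)) * ∏ i, lp A (ez z) i := by
        rw [← Finset.prod_mul_distrib]
        refine Finset.prod_congr rfl fun i _ => ?_
        rw [hlam2, ← hlp]
      have h6 : 0 < ∏ i, g.lam i (fun i => (z i : ℝ)) := Finset.prod_pos fun i _ => hpos i
      have h7 : |∏ i, sgb (σ i)| = 1 := by
        rw [Finset.abs_prod]
        exact Finset.prod_eq_one fun i _ => abs_sgb _
      calc ∏ i, g.lam i (fun i => (z i : ℝ)) = |∏ i, g.lam i (fun i => (z i : ℝ))| := (abs_of_pos h6).symm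
        _ = |(∏ i, sgb (σ i)) * ∏ i, lp A (ez z) i| := by rw [h5]
        _ = |∏ i, lp A (ez z) i| := by rw [abs_mul, h7, one_mul]
    unfold ex
    rw [hphi]
  · rw [Set.indicator_of_notMem hoct, zero_mul, zero_mul]

theorem latticeE : LatticeE := by
  intro A hA G hG hc hs κ₁ κ₂ hκ
  rcases lt_or_ge κ₂ κ₁ with h12 | h12
  · exact ⟨0, 1, one_pos, fun X κ _ h1 h2 => absurd (h1.trans h2) (not_le.mpr h12)⟩
  choose C hC using fun σ => geo_one hA hG hc hs hκ h12 σ
  refine ⟨∑ σ, C σ, 1 / 100, by norm_num, fun X κ hX h1 h2 => ?_⟩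
  have hX0 : 0 < X := by linarith
  have hsum : ∀ σ ∈ (Finset.univ : Finset (Fin 3 → Bool)), Summable fun y : Fin 3 → ℤ =>
      (oct σ).indicator G (X⁻¹ • lp A y) * cexp (2 * Real.pi * I * ((κ * phi (lp A y) : ℝ) : ℂ)) := by
    intro σ _
    apply summable_of_hasFiniteSupport
    refine (finite_lattice hA (hasCompactSupport_oct hc σ).isCompact hX0).subset ?_
    intro y hy
    rw [Function.mem_support] at hy
    apply subset_tsupport
    rw [Function.mem_support]
    intro h
    exact hy (by rw [h, zero_mul])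
  have heq : ∑' y : Fin 3 → ℤ, G (X⁻¹ • lp A y) * cexp (2 * Real.pi * I * ((κ * phi (lp A y) : ℝ) : ℂ)) =
      ∑ σ : Fin 3 → Bool, ∑' y : Fin 3 → ℤ,
        (oct σ).indicator G (X⁻¹ • lp A y) * cexp (2 * Real.pi * I * ((κ * phi (lp A y) : ℝ) : ℂ)) := by
    rw [← Summable.tsum_finsetSum hsum]
    congr 1
    ext y
    rw [← Finset.sum_mul, ← sum_oct hs]
  rw [heq, show (5 / 2 - 1 / 100 : ℝ) = 249 / 100 by norm_num, Finset.sum_mul]
  refine (norm_sum_le _ _).trans ?_
  exact Finset.sum_le_sum fun σ _ => hC σ X κ hX h1 h2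

end Pool.Agent.Helper83.BDF
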