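import Pool.Agent.Helper83.BDF.Zeros
import Pool.Agent.Helper83.BDF.F5
import Pool.Agent.Helper83.BDF.F6

/-!
MP_bd232a_nt, part F, final theorem: infinitely many zeros on the critical line.
-/

namespace Pool.Agent.Helper83.BDF

open Pool.Agent.Helper19.BD

theorem infinite_zeros (H : HeckeF) : {s : ℂ | s.re = 1 / 2 ∧ H.F s = 0}.Infinite :=
  zeros_of_sumBound H (sumBound H latticeE)

end Pool.Agent.Helper83.BDF
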