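import Mathlib
import Pool.Agent.Helper83.BDF.Shift

/-!
Gaussian mean value of a Dirichlet series with first coefficient `1` on the line `Re s = 1/2`
(helper file for MP_bd232a_nt, part F3).
-/

open Complex MeasureTheory Set Filter Topology

namespace Pool.Agent.Helper83.BDF

/-- the Gaussian weight, centred at `1/2 + i T` -/
noncomputable def gw (T D : ℝ) (s : ℂ) : ℂ := cexp (((s - 1 / 2 - T * I) / D) ^ 2)

lemma gw_half (T D t : ℝ) : gw T D (((1 / 2 : ℝ) : ℂ) + t * I) = ((Real.exp (-((t - T) / D) ^ 2) : ℝ) : ℂ) := by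
  unfold gw
  rw [ofReal_exp]
  congr 1
  push_cast
  have : ((1 : ℂ) / 2 + t * I - 1 / 2 - T * I) / D = ((t - T) / D) * I := by ring
  rw [this, mul_pow, I_sq]
  ring

lemma norm_gw (T D : ℝ) (s : ℂ) : ‖gw T D s‖ = Real.exp (((s.re - 1 / 2) ^ 2 - (s.im - T) ^ 2) / D ^ 2) := by
  unfold gw
  rw [Complex.norm_exp]
  congr 1
  rw [div_pow]
  have h : ((D : ℂ)) ^ 2 = ((D ^ 2 : ℝ) : ℂ) := by push_cast; rfl
  rw [h, Complex.div_ofReal_re]
  congr 1
  rw [sq, mul_re]
  simp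
  ring

lemma differentiable_gw (T D : ℝ) : Differentiable ℂ (gw T D) := by
  unfold gw
  fun_prop

lemma term_line (a : ℕ → ℂ) {n : ℕ} (hn : n ≠ 0) (T D t : ℝ) (hD : 0 < D) :
    LSeries.term a (((2 : ℝ) : ℂ) + t * I) n * gw T D (((2 : ℝ) : ℂ) + t * I) =
      a n * cexp ((-1 / (D : ℂ) ^ 2) * (t : ℂ) ^ 2 + ((3 * I + 2 * T) / (D : ℂ) ^ 2 - I * Real.log n) * t +
        (-2 * Real.log n + (9 / 4 - 3 * I * T - (T : ℂ) ^ 2) / (D : ℂ) ^ 2)) := by
  have hD' : (D : ℂ) ≠ 0 := by exact_mod_cast hD.ne'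
  rw [LSeries.term_of_ne_zero hn]
  unfold gw
  rw [cpow_def_of_ne_zero (by exact_mod_cast hn), div_eq_mul_inv, ← Complex.exp_neg, mul_assoc, ← Complex.exp_add,
    ← Complex.natCast_log]
  congr 2
  have hI : I ^ 2 = -1 := I_sq
  push_cast
  field_simp
  ring_nf
  rw [hI]
  ring

lemma integrable_term_line (a : ℕ → ℂ) (n : ℕ) (T D : ℝ) (hD : 0 < D) :
    Integrable (fun t : ℝ => LSeries.term a (((2 : ℝ) : ℂ) + t * I) n * gw T D (((2 : ℝ) : ℂ) + t * I)) := by
  rcases eq_or_ne n 0 with rfl | hn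
  · simp
  simp_rw [term_line a hn T D _ hD]
  apply Integrable.const_mul
  apply integrable_cexp_quadratic'
  have : (-1 / (D : ℂ) ^ 2) = ((-1 / D ^ 2 : ℝ) : ℂ) := by push_cast; rfl
  rw [this, ofReal_re]
  have : 0 < D ^ 2 := by positivity
  exact div_neg_of_neg_of_pos (by norm_num) this

lemma integral_term_line (a : ℕ → ℂ) {n : ℕ} (hn : n ≠ 0) (T D : ℝ) (hD : 0 < D) :
    ∫ t : ℝ, LSeries.term a (((2 : ℝ) : ℂ) + t * I) n * gw T D (((2 : ℝ) : ℂ) + t * I) =
      a n * ((√Real.pi * D : ℝ) : ℂ) *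
        cexp ((-1 / 2 - T * I) * Real.log n - (D : ℂ) ^ 2 * (Real.log n : ℂ) ^ 2 / 4) := by
  simp_rw [term_line a hn T D _ hD]
  rw [integral_const_mul, integral_cexp_quadratic]
  swap
  · have : (-1 / (D : ℂ) ^ 2) = ((-1 / D ^ 2 : ℝ) : ℂ) := by push_cast; rfl
    rw [this, ofReal_re]
    have : 0 < D ^ 2 := by positivity
    exact div_neg_of_neg_of_pos (by norm_num) this
  have hD' : (D : ℂ) ≠ 0 := by exact_mod_cast hD.ne'
  have h1 : ((Real.pi : ℂ) / -(-1 / (D : ℂ) ^ 2)) ^ (1 / 2 : ℂ) = ((√Real.pi * D : ℝ) : ℂ) := by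
    have h1 : (Real.pi : ℂ) / -(-1 / (D : ℂ) ^ 2) = ((Real.pi * D ^ 2 : ℝ) : ℂ) := by
      push_cast
      field_simp
    rw [h1, show ((1 : ℂ) / 2) = ((1 / 2 : ℝ) : ℂ) by push_cast; rfl, ← ofReal_cpow (by positivity),
      ← Real.sqrt_eq_rpow, Real.sqrt_mul Real.pi_pos.le, Real.sqrt_sq hD.le]
  rw [h1, ← mul_assoc]
  congr 2
  have hI : I ^ 2 = -1 := I_sq
  field_simp
  ring_nf
  rw [hI]
  ring

lemma norm_integral_term_line (a : ℕ → ℂ) {n : ℕ} (hn : n ≠ 0) (T D : ℝ) (hD : 0 < D) :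
    ‖∫ t : ℝ, LSeries.term a (((2 : ℝ) : ℂ) + t * I) n * gw T D (((2 : ℝ) : ℂ) + t * I)‖ =
      ‖a n‖ * (√Real.pi * D) * Real.exp (-(1 / 2) * Real.log n - D ^ 2 * Real.log n ^ 2 / 4) := by
  rw [integral_term_line a hn T D hD, norm_mul, norm_mul, Complex.norm_exp, Complex.norm_real, Real.norm_eq_abs,
    abs_of_nonneg (by positivity)]
  congr 2
  have h : ((-1 / 2 - T * I) * Real.log n - (D : ℂ) ^ 2 * (Real.log n : ℂ) ^ 2 / 4 : ℂ) =
      ((-(1 / 2) * Real.log n - D ^ 2 * Real.log n ^ 2 / 4 : ℝ) : ℂ) + ((-(T * Real.log n) : ℝ) : ℂ) * I := by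
    push_cast
    ring
  rw [h, add_re, ofReal_re, mul_re, ofReal_re, I_re, mul_zero, ofReal_im, zero_mul, sub_zero, add_zero]

lemma integral_norm_term_line (a : ℕ → ℂ) (n : ℕ) (T D : ℝ) (hD : 0 < D) :
    ∫ t : ℝ, ‖LSeries.term a (((2 : ℝ) : ℂ) + t * I) n * gw T D (((2 : ℝ) : ℂ) + t * I)‖ =
      ‖LSeries.term a 2 n‖ * (Real.exp (9 / 4 / D ^ 2) * (√Real.pi * D)) := by
  have h1 : ∀ t : ℝ, ‖LSeries.term a (((2 : ℝ) : ℂ) + t * I) n * gw T D (((2 : ℝ) : ℂ) + t * I)‖ =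
      ‖LSeries.term a 2 n‖ * (Real.exp (9 / 4 / D ^ 2) * Real.exp (-(1 / D ^ 2) * (t - T) ^ 2)) := by
    intro t
    rw [norm_mul, norm_gw, LSeries.norm_term_eq, LSeries.norm_term_eq, ← Real.exp_add]
    have e1 : ((((2 : ℝ) : ℂ) + t * I)).re = 2 := by simp
    have e2 : ((((2 : ℝ) : ℂ) + t * I)).im = t := by simp
    rw [e1, e2]
    have e3 : ((2 : ℂ)).re = 2 := by simp
    rw [e3]
    congr 2
    ring
  simp_rw [h1]
  rw [integral_const_mul, integral_const_mul]
  congr 2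
  have h2 : ∫ t : ℝ, Real.exp (-(1 / D ^ 2) * (t - T) ^ 2) = ∫ t : ℝ, Real.exp (-(1 / D ^ 2) * t ^ 2) :=
    integral_sub_right_eq_self (fun t => Real.exp (-(1 / D ^ 2) * t ^ 2)) T
  rw [h2, integral_gaussian]
  rw [div_div_eq_mul_div, div_one, Real.sqrt_mul Real.pi_pos.le, Real.sqrt_sq hD.le]

/-- polynomial times Gaussian is integrable -/
lemma integrable_poly_gauss (A T D : ℝ) (hD : 0 < D) (hA : 0 ≤ A) :
    Integrable (fun t : ℝ => (1 + |t|) ^ A * Real.exp (-((t - T) / D) ^ 2)) := by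
  -- `(1+|t|)^A ≤ C exp ((t-T)^2/(2D^2))`
  have hlim : Tendsto (fun x : ℝ => x ^ A * Real.exp (-1 * x)) atTop (𝓝 0) :=
    tendsto_rpow_mul_exp_neg_mul_atTop_nhds_zero A 1 one_pos
  have hint : Integrable (fun t : ℝ => Real.exp (-(1 / (2 * D ^ 2)) * (t - T) ^ 2)) := by
    exact (integrable_exp_neg_mul_sq (b := 1 / (2 * D ^ 2)) (by positivity)).comp_sub_right T
  -- bound
  obtain ⟨x0, hx0⟩ := (hlim.eventually (gt_mem_nhds (show (0 : ℝ) < 1 by norm_num))).exists_forall_of_atTop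
  have hbd : ∃ C : ℝ, ∀ t : ℝ, (1 + |t|) ^ A ≤ C * Real.exp (1 + |t|) := by
    refine ⟨max 1 ((max x0 1) ^ A), fun t => ?_⟩
    have h1 : 1 ≤ 1 + |t| := by linarith [abs_nonneg t]
    by_cases h : x0 ≤ 1 + |t|
    · have := hx0 _ h
      have h2 : (1 + |t|) ^ A ≤ 1 * Real.exp (1 + |t|) := by
        have h3 : (1 + |t|) ^ A * Real.exp (-1 * (1 + |t|)) * Real.exp (1 + |t|) ≤ 1 * Real.exp (1 + |t|) :=
          mul_le_mul_of_nonneg_right this.le (Real.exp_pos _).le
        rwa [mul_assoc, ← Real.exp_add, show -1 * (1 + |t|) + (1 + |t|) = 0 by ring, Real.exp_zero, mul_one] at h3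
      exact h2.trans (mul_le_mul_of_nonneg_right (le_max_left _ _) (Real.exp_pos _).le)
    · push Not at h
      have h2 : (1 + |t|) ^ A ≤ (max x0 1) ^ A :=
        Real.rpow_le_rpow (by linarith) (h.le.trans (le_max_left _ _)) hA
      have h3 : (1 : ℝ) ≤ Real.exp (1 + |t|) := Real.one_le_exp (by linarith)
      calc (1 + |t|) ^ A ≤ (max x0 1) ^ A := h2
        _ ≤ max 1 ((max x0 1) ^ A) := le_max_right _ _
        _ = max 1 ((max x0 1) ^ A) * 1 := (mul_one _).symm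
        _ ≤ _ := mul_le_mul_of_nonneg_left h3 (by positivity)
  obtain ⟨C, hC⟩ := hbd
  have hC0 : 0 ≤ C := by
    have := hC 0
    by_contra hneg
    push Not at hneg
    have h2 : C * Real.exp (1 + |(0 : ℝ)|) < 0 := mul_neg_of_neg_of_pos hneg (Real.exp_pos _)
    have h3 : 0 ≤ (1 + |(0 : ℝ)|) ^ A := by positivity
    linarith
  refine Integrable.mono' (hint.const_mul (C * Real.exp (1 + |T| + D ^ 2 / 2))) ?_ ?_
  · apply Continuous.aestronglyMeasurable
    apply Continuous.mul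
    · apply Continuous.rpow_const (by fun_prop)
      intro x
      right
      exact hA
    · fun_prop
  · refine Filter.Eventually.of_forall fun t => ?_
    rw [Real.norm_eq_abs, abs_of_nonneg (by positivity)]
    have h1 := hC t
    have h2 : 1 + |t| - ((t - T) / D) ^ 2 ≤ 1 + |T| + D ^ 2 / 2 - (1 / (2 * D ^ 2)) * (t - T) ^ 2 := by
      have h3 : |t| ≤ |t - T| + |T| := by
        have := abs_add_le (t - T) T
        simpa using this
      have h4 : |t - T| ≤ D ^ 2 / 2 + (1 / (2 * D ^ 2)) * (t - T) ^ 2 := by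
        rw [← sq_abs (t - T)]
        have h5 : 0 ≤ (D ^ 2 - |t - T|) ^ 2 / (2 * D ^ 2) := by positivity
        have h6 : (D ^ 2 - |t - T|) ^ 2 / (2 * D ^ 2) =
            D ^ 2 / 2 + (1 / (2 * D ^ 2)) * |t - T| ^ 2 - |t - T| := by
          field_simp
          ring
        linarith
      have h7 : ((t - T) / D) ^ 2 = 2 * ((1 / (2 * D ^ 2)) * (t - T) ^ 2) := by
        field_simp
      rw [h7]
      linarith
    calc (1 + |t|) ^ A * Real.exp (-((t - T) / D) ^ 2)
        ≤ C * Real.exp (1 + |t|) * Real.exp (-((t - T) / D) ^ 2) :=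
          mul_le_mul_of_nonneg_right h1 (Real.exp_pos _).le
      _ = C * Real.exp (1 + |t| - ((t - T) / D) ^ 2) := by
          rw [mul_assoc, ← Real.exp_add]; ring_nf
      _ ≤ C * Real.exp (1 + |T| + D ^ 2 / 2 - (1 / (2 * D ^ 2)) * (t - T) ^ 2) :=
          mul_le_mul_of_nonneg_left (Real.exp_le_exp.mpr h2) hC0
      _ = C * Real.exp (1 + |T| + D ^ 2 / 2) * Real.exp (-(1 / (2 * D ^ 2)) * (t - T) ^ 2) := by
          rw [mul_assoc C, ← Real.exp_add]; ring_nf

lemma half_exp_tendsto (δ : ℝ) (hδ : 0 < δ) : ∃ D0 : ℝ, 1 ≤ D0 ∧ ∀ D : ℝ, D0 ≤ D → ∀ n : ℕ, 2 ≤ n →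
    Real.exp (-(1 / 2) * Real.log n - D ^ 2 * Real.log n ^ 2 / 4) ≤ δ * Real.exp (-2 * Real.log n) := by
  have hl2 : 0 < Real.log 2 := Real.log_pos (by norm_num)
  refine ⟨max 1 (√(4 / Real.log 2 * (3 / 2 + |Real.log δ| / Real.log 2))), le_max_left _ _, fun D hD n hn => ?_⟩
  have hD1 : 1 ≤ D := (le_max_left _ _).trans hD
  have hD2 : 4 / Real.log 2 * (3 / 2 + |Real.log δ| / Real.log 2) ≤ D ^ 2 := by
    have h := (le_max_right _ _).trans hD
    exact (Real.sqrt_le_left (by linarith)).mp h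
  have hln : Real.log 2 ≤ Real.log n := Real.log_le_log (by norm_num) (by exact_mod_cast hn)
  have h1 : 3 / 2 + |Real.log δ| / Real.log 2 ≤ D ^ 2 * Real.log 2 / 4 := by
    have := mul_le_mul_of_nonneg_right hD2 (show 0 ≤ Real.log 2 / 4 by positivity)
    calc 3 / 2 + |Real.log δ| / Real.log 2
        = 4 / Real.log 2 * (3 / 2 + |Real.log δ| / Real.log 2) * (Real.log 2 / 4) := by field_simp
      _ ≤ D ^ 2 * (Real.log 2 / 4) := this
      _ = _ := by ring
  have h2 : 3 / 2 + |Real.log δ| / Real.log 2 ≤ D ^ 2 * Real.log n / 4 := by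
    have : D ^ 2 * Real.log 2 / 4 ≤ D ^ 2 * Real.log n / 4 := by
      have := mul_le_mul_of_nonneg_left hln (sq_nonneg D)
      linarith
    linarith
  have h3 : (3 / 2 + |Real.log δ| / Real.log 2) * Real.log n ≤ D ^ 2 * Real.log n ^ 2 / 4 := by
    have := mul_le_mul_of_nonneg_right h2 (hl2.le.trans hln)
    calc _ ≤ D ^ 2 * Real.log n / 4 * Real.log n := this
      _ = _ := by ring
  have h4 : |Real.log δ| ≤ |Real.log δ| / Real.log 2 * Real.log n := by
    calc |Real.log δ| = |Real.log δ| / Real.log 2 * Real.log 2 := by field_simp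
      _ ≤ _ := mul_le_mul_of_nonneg_left hln (by positivity)
  have h5 : -|Real.log δ| ≤ Real.log δ := neg_abs_le _
  calc Real.exp (-(1 / 2) * Real.log n - D ^ 2 * Real.log n ^ 2 / 4)
      ≤ Real.exp (Real.log δ + -2 * Real.log n) := by
        apply Real.exp_le_exp.mpr
        nlinarith
    _ = δ * Real.exp (-2 * Real.log n) := by rw [Real.exp_add, Real.exp_log hδ]

lemma norm_term_two (a : ℕ → ℂ) {n : ℕ} (hn : n ≠ 0) :
    ‖LSeries.term a 2 n‖ = ‖a n‖ * Real.exp (-2 * Real.log n) := by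
  have hn0 : (0 : ℝ) < n := by exact_mod_cast Nat.pos_of_ne_zero hn
  rw [LSeries.norm_term_eq, if_neg hn]
  have e3 : ((2 : ℂ)).re = 2 := by simp
  rw [e3, div_eq_mul_inv, ← Real.rpow_neg hn0.le, Real.rpow_def_of_pos hn0]
  congr 2
  ring

/-- Gaussian mean value on `Re s = 1/2`. -/
theorem mean_gauss {F : ℂ → ℂ} {a : ℕ → ℂ} (hF : Differentiable ℂ F) {A C : ℝ} (hA : 0 ≤ A)
    (hg : ∀ s : ℂ, 1 / 2 ≤ s.re → s.re ≤ 2 → ‖F s‖ ≤ C * (1 + |s.im|) ^ A)
    (hs : ∀ s : ℂ, 1 < s.re → LSeriesSummable a s) (he : ∀ s : ℂ, 1 < s.re → F s = LSeries a s) (ha1 : a 1 = 1) :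
    ∃ D0 : ℝ, 1 ≤ D0 ∧ ∀ D : ℝ, D0 ≤ D → ∀ T : ℝ,
      D ≤ ∫ t : ℝ, ‖F (((1 / 2 : ℝ) : ℂ) + t * I)‖ * Real.exp (-((t - T) / D) ^ 2) := by
  have hC : 0 ≤ C := by
    have h1 := (norm_nonneg _).trans (hg 1 (by norm_num) (by norm_num))
    simpa using h1
  have hsum2 : Summable (fun n => ‖LSeries.term a 2 n‖) := (hs 2 (by norm_num)).norm
  set S : ℝ := ∑' n, ‖LSeries.term a 2 n‖ with hS
  have hS0 : 0 ≤ S := tsum_nonneg fun n => norm_nonneg _
  obtain ⟨D0, hD01, hD0⟩ := half_exp_tendsto (1 / (4 * (S + 1))) (by positivity)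
  refine ⟨D0, hD01, fun D hD T => ?_⟩
  have hDpos : 0 < D := by linarith
  -- the shift
  have hcont : Continuous F := hF.continuous
  have hcg : Continuous (gw T D) := (differentiable_gw T D).continuous
  have hnorm : ∀ x : ℝ, 1 / 2 ≤ x → x ≤ 2 → ∀ t : ℝ, ‖F ((x : ℂ) + t * I) * gw T D ((x : ℂ) + t * I)‖ ≤
      C * Real.exp (9 / 4 / D ^ 2) * ((1 + |t|) ^ A * Real.exp (-((t - T) / D) ^ 2)) := by
    intro x hx1 hx2 t
    rw [norm_mul, norm_gw]
    have e1 : (((x : ℂ)) + t * I).re = x := by simp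
    have e2 : (((x : ℂ)) + t * I).im = t := by simp
    have h1 := hg ((x : ℂ) + t * I) (by rw [e1]; exact hx1) (by rw [e1]; exact hx2)
    rw [e2] at h1
    rw [e1, e2]
    have h2 : Real.exp (((x - 1 / 2) ^ 2 - (t - T) ^ 2) / D ^ 2) ≤
        Real.exp (9 / 4 / D ^ 2) * Real.exp (-((t - T) / D) ^ 2) := by
      rw [← Real.exp_add]
      apply Real.exp_le_exp.mpr
      have h3 : (x - 1 / 2) ^ 2 ≤ 9 / 4 := by nlinarith
      have h4 : 9 / 4 / D ^ 2 + -((t - T) / D) ^ 2 = (9 / 4 - (t - T) ^ 2) / D ^ 2 := by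
        rw [div_pow]; ring
      rw [h4]
      apply div_le_div_of_nonneg_right _ (by positivity)
      linarith
    calc ‖F ((x : ℂ) + t * I)‖ * Real.exp (((x - 1 / 2) ^ 2 - (t - T) ^ 2) / D ^ 2)
        ≤ (C * (1 + |t|) ^ A) * (Real.exp (9 / 4 / D ^ 2) * Real.exp (-((t - T) / D) ^ 2)) :=
          mul_le_mul h1 h2 (Real.exp_pos _).le (by positivity)
      _ = _ := by ring
  have hgi := integrable_poly_gauss A T D hDpos hA
  have hint : ∀ x : ℝ, 1 / 2 ≤ x → x ≤ 2 →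
      Integrable (fun t : ℝ => F ((x : ℂ) + t * I) * gw T D ((x : ℂ) + t * I)) := by
    intro x hx1 hx2
    refine Integrable.mono' (hgi.const_mul (C * Real.exp (9 / 4 / D ^ 2))) ?_ ?_
    · apply Continuous.aestronglyMeasurable
      exact (hcont.comp (by fun_prop)).mul (hcg.comp (by fun_prop))
    · exact Filter.Eventually.of_forall (hnorm x hx1 hx2)
  have hshift := shift (fun s => F s * gw T D s) (a := 1 / 2) (b := 2) (by norm_num)
    (fun s _ _ => (hF s).mul ((differentiable_gw T D) s))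
    (fun R => C * Real.exp (9 / 4 / D ^ 2) * ((1 + R) ^ A * Real.exp (-(R - |T|) ^ 2 / D ^ 2)))
    (by
      have hD2 : 0 < D ^ 2 := by positivity
      have h1 : Tendsto (fun R : ℝ => (1 + R) ^ A * Real.exp (-1 * (1 + R))) atTop (𝓝 0) :=
        (tendsto_rpow_mul_exp_neg_mul_atTop_nhds_zero A 1 one_pos).comp (tendsto_atTop_add_const_left _ 1 tendsto_id)
      have h2 : Tendsto (fun R : ℝ => C * Real.exp (9 / 4 / D ^ 2) *
          (((1 + R) ^ A * Real.exp (-1 * (1 + R))) * Real.exp (1 + |T| + D ^ 2 / 4))) atTop (𝓝 0) := by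
        have := (h1.mul_const (Real.exp (1 + |T| + D ^ 2 / 4))).const_mul (C * Real.exp (9 / 4 / D ^ 2))
        simpa using this
      refine squeeze_zero' ?_ ?_ h2
      · filter_upwards [eventually_ge_atTop 0] with R hR
        positivity
      · filter_upwards [eventually_ge_atTop 0] with R hR
        apply mul_le_mul_of_nonneg_left _ (by positivity)
        rw [mul_assoc, ← Real.exp_add]
        apply mul_le_mul_of_nonneg_left _ (by positivity)
        apply Real.exp_le_exp.mpr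
        have h3 : 0 ≤ ((R - |T|) - D ^ 2 / 2) ^ 2 / D ^ 2 := by positivity
        have h4 : ((R - |T|) - D ^ 2 / 2) ^ 2 / D ^ 2 = (R - |T|) ^ 2 / D ^ 2 - (R - |T|) + D ^ 2 / 4 := by
          field_simp
          ring
        rw [h4] at h3
        have h5 : -(R - |T|) ^ 2 / D ^ 2 = -((R - |T|) ^ 2 / D ^ 2) := by ring
        rw [h5]
        linarith)
    (by
      filter_upwards [eventually_ge_atTop (|T|)] with R hR s hs1 hs2 hsR
      have h1 := hnorm s.re hs1 hs2 s.im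
      rw [re_add_im] at h1
      refine h1.trans ?_
      rw [hsR]
      apply mul_le_mul_of_nonneg_left _ (by positivity)
      apply mul_le_mul_of_nonneg_left _ (by
        have := (abs_nonneg T).trans hR
        positivity)
      apply Real.exp_le_exp.mpr
      rw [div_pow, ← neg_div]
      apply div_le_div_of_nonneg_right _ (by positivity)
      have h2 : R - |T| ≤ |s.im - T| := by
        have := abs_sub_abs_le_abs_sub s.im T
        rw [hsR] at this
        exact this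
      have h3 : (R - |T|) ^ 2 ≤ |s.im - T| ^ 2 := pow_le_pow_left₀ (by linarith) h2 2
      rw [sq_abs] at h3
      linarith)
    (hint (1 / 2) le_rfl (by norm_num)) (hint 2 (by norm_num) le_rfl)
  -- expansion on `Re s = 2`
  have hexp : ∫ t : ℝ, F (((2 : ℝ) : ℂ) + t * I) * gw T D (((2 : ℝ) : ℂ) + t * I) =
      ∑' n, ∫ t : ℝ, LSeries.term a (((2 : ℝ) : ℂ) + t * I) n * gw T D (((2 : ℝ) : ℂ) + t * I) := by
    have h1 := hasSum_integral_of_summable_integral_norm
      (F := fun (n : ℕ) (t : ℝ) => LSeries.term a (((2 : ℝ) : ℂ) + t * I) n * gw T D (((2 : ℝ) : ℂ) + t * I))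
      (fun n => integrable_term_line a n T D hDpos)
      (by
        simp_rw [integral_norm_term_line a _ T D hDpos]
        exact hsum2.mul_right _)
    rw [h1.tsum_eq]
    congr 1
    ext t
    rw [tsum_mul_right, he _ (by simp)]
    rfl
  have hsummI : Summable (fun n => ∫ t : ℝ, LSeries.term a (((2 : ℝ) : ℂ) + t * I) n *
      gw T D (((2 : ℝ) : ℂ) + t * I)) := by
    have h1 := hasSum_integral_of_summable_integral_norm
      (F := fun (n : ℕ) (t : ℝ) => LSeries.term a (((2 : ℝ) : ℂ) + t * I) n * gw T D (((2 : ℝ) : ℂ) + t * I))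
      (fun n => integrable_term_line a n T D hDpos)
      (by
        simp_rw [integral_norm_term_line a _ T D hDpos]
        exact hsum2.mul_right _)
    exact h1.summable
  -- lower bound
  have hlow : D ≤ ‖∫ t : ℝ, F (((2 : ℝ) : ℂ) + t * I) * gw T D (((2 : ℝ) : ℂ) + t * I)‖ := by
    rw [hexp, hsummI.tsum_eq_add_tsum_ite 1]
    have hI1 : ‖∫ t : ℝ, LSeries.term a (((2 : ℝ) : ℂ) + t * I) 1 * gw T D (((2 : ℝ) : ℂ) + t * I)‖ =
        √Real.pi * D := by
      rw [norm_integral_term_line a one_ne_zero T D hDpos, ha1]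
      simp
    have hrest : ‖∑' n, (if n = 1 then 0 else ∫ t : ℝ, LSeries.term a (((2 : ℝ) : ℂ) + t * I) n *
        gw T D (((2 : ℝ) : ℂ) + t * I))‖ ≤ √Real.pi * D * (1 / 4) := by
      have hbd : ∀ n : ℕ, ‖(if n = 1 then 0 else ∫ t : ℝ, LSeries.term a (((2 : ℝ) : ℂ) + t * I) n *
          gw T D (((2 : ℝ) : ℂ) + t * I))‖ ≤ (√Real.pi * D * (1 / (4 * (S + 1)))) * ‖LSeries.term a 2 n‖ := by
        intro n
        rcases Nat.lt_or_ge n 2 with hn | hn
        · interval_cases n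
          · simp
          · simp only [if_true, norm_zero]
            positivity
        · rw [if_neg (by omega), norm_integral_term_line a (by omega) T D hDpos, norm_term_two a (by omega)]
          have h1 := hD0 D hD n hn
          calc ‖a n‖ * (√Real.pi * D) * Real.exp (-(1 / 2) * Real.log n - D ^ 2 * Real.log n ^ 2 / 4)
              ≤ ‖a n‖ * (√Real.pi * D) * (1 / (4 * (S + 1)) * Real.exp (-2 * Real.log n)) :=
                mul_le_mul_of_nonneg_left h1 (by positivity)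
            _ = _ := by ring
      have hsm : Summable (fun n => (√Real.pi * D * (1 / (4 * (S + 1)))) * ‖LSeries.term a 2 n‖) :=
        hsum2.mul_left _
      refine (tsum_of_norm_bounded hsm.hasSum hbd).trans ?_
      rw [tsum_mul_left, ← hS]
      have h2 : 1 / (4 * (S + 1)) * S ≤ 1 / 4 := by
        rw [div_mul_eq_mul_div, one_mul, div_le_div_iff₀ (by positivity) (by norm_num)]
        linarith
      calc √Real.pi * D * (1 / (4 * (S + 1))) * S = √Real.pi * D * (1 / (4 * (S + 1)) * S) := by ring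
        _ ≤ _ := mul_le_mul_of_nonneg_left h2 (by positivity)
    have hpi : (3 / 2 : ℝ) ≤ √Real.pi := by
      apply Real.le_sqrt_of_sq_le
      have := Real.pi_gt_three
      norm_num
      linarith
    have htri := norm_sub_le_norm_add
      (∫ t : ℝ, LSeries.term a (((2 : ℝ) : ℂ) + t * I) 1 * gw T D (((2 : ℝ) : ℂ) + t * I))
      (∑' n, (if n = 1 then 0 else ∫ t : ℝ, LSeries.term a (((2 : ℝ) : ℂ) + t * I) n *
        gw T D (((2 : ℝ) : ℂ) + t * I)))
    rw [hI1] at htri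
    have h9 : D ≤ √Real.pi * D - √Real.pi * D * (1 / 4) := by nlinarith
    linarith
  rw [← hshift] at hlow
  refine hlow.trans ?_
  refine (norm_integral_le_integral_norm _).trans (le_of_eq ?_)
  congr 1
  ext t
  rw [norm_mul, gw_half, Complex.norm_real, Real.norm_eq_abs, abs_of_pos (Real.exp_pos _)]

end Pool.Agent.Helper83.BDF
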