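import Mathlib
import Pool.Agent.Helper83.BDF.MeanGauss

/-!
Lower bound for `∫ |F(1/2+it)| t^{-3/4} exp(-d t) dt`, `d → 0` (helper file for MP_bd232a_nt, part F3).
-/

open Complex MeasureTheory Set Filter Topology

namespace Pool.Agent.Helper83.BDF

lemma rpow_le_exp (A : ℝ) (hA : 0 ≤ A) : ∃ C : ℝ, 0 ≤ C ∧ ∀ t : ℝ, 1 ≤ t → t ^ A ≤ C * Real.exp t := by
  have hlim : Tendsto (fun x : ℝ => x ^ A * Real.exp (-1 * x)) atTop (𝓝 0) :=
    tendsto_rpow_mul_exp_neg_mul_atTop_nhds_zero A 1 one_pos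
  obtain ⟨x0, hx0⟩ := (hlim.eventually (gt_mem_nhds (show (0 : ℝ) < 1 by norm_num))).exists_forall_of_atTop
  refine ⟨max 1 ((max x0 1) ^ A), by positivity, fun t h1 => ?_⟩
  by_cases h : x0 ≤ t
  · have := hx0 _ h
    have h2 : t ^ A ≤ 1 * Real.exp t := by
      have h3 : t ^ A * Real.exp (-1 * t) * Real.exp t ≤ 1 * Real.exp t :=
        mul_le_mul_of_nonneg_right this.le (Real.exp_pos _).le
      rwa [mul_assoc, ← Real.exp_add, show -1 * t + t = 0 by ring, Real.exp_zero, mul_one] at h3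
    exact h2.trans (mul_le_mul_of_nonneg_right (le_max_left _ _) (Real.exp_pos _).le)
  · push Not at h
    have h2 : t ^ A ≤ (max x0 1) ^ A :=
      Real.rpow_le_rpow (by linarith) (h.le.trans (le_max_left _ _)) hA
    have h3 : (1 : ℝ) ≤ Real.exp t := Real.one_le_exp (by linarith)
    calc t ^ A ≤ (max x0 1) ^ A := h2
      _ ≤ max 1 ((max x0 1) ^ A) := le_max_right _ _
      _ = max 1 ((max x0 1) ^ A) * 1 := (mul_one _).symm
      _ ≤ _ := mul_le_mul_of_nonneg_left h3 (by positivity)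

/-- `T^B exp(-(T^(2η)-1)/4) → 0` -/
lemma tendsto_tail (B η : ℝ) (hη : 0 < η) :
    Tendsto (fun T : ℝ => T ^ B * Real.exp (-(T ^ (2 * η) - 1) / 4)) atTop (𝓝 0) := by
  have h1 : Tendsto (fun T : ℝ => (T ^ (2 * η)) ^ (B / (2 * η)) * Real.exp (-(1 / 4) * T ^ (2 * η))) atTop (𝓝 0) :=
    (tendsto_rpow_mul_exp_neg_mul_atTop_nhds_zero (B / (2 * η)) (1 / 4) (by norm_num)).comp
      (tendsto_rpow_atTop (by positivity))
  have h2 := h1.mul_const (Real.exp (1 / 4))
  rw [zero_mul] at h2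
  refine h2.congr' ?_
  filter_upwards [eventually_gt_atTop 0] with T hT
  rw [← Real.rpow_mul hT.le, mul_assoc, ← Real.exp_add]
  congr 2
  · field_simp
  · ring

theorem short_mean {F : ℂ → ℂ} {a : ℕ → ℂ} (hF : Differentiable ℂ F) {A C : ℝ} (hA : 0 ≤ A)
    (hg : ∀ s : ℂ, 1 / 2 ≤ s.re → s.re ≤ 2 → ‖F s‖ ≤ C * (1 + |s.im|) ^ A)
    (hs : ∀ s : ℂ, 1 < s.re → LSeriesSummable a s) (he : ∀ s : ℂ, 1 < s.re → F s = LSeries a s) (ha1 : a 1 = 1)
    {η : ℝ} (hη : 0 < η) (hη1 : η ≤ 1 / 2) :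
    ∃ T0 : ℝ, 1 ≤ T0 ∧ ∀ T : ℝ, T0 ≤ T →
      T ^ (1 - η) / 2 ≤ ∫ t in Ioc (T / 2) (3 * T / 2), ‖F (((1 / 2 : ℝ) : ℂ) + t * I)‖ := by
  have hC : 0 ≤ C := by
    have h1 := (norm_nonneg _).trans (hg 1 (by norm_num) (by norm_num))
    simpa using h1
  obtain ⟨D0, hD01, hD0⟩ := mean_gauss hF hA hg hs he ha1
  obtain ⟨CA, hCA0, hCA⟩ := rpow_le_exp A hA
  set M : ℝ := C * CA * 5 ^ A * Real.exp (3 / 2) * √(2 * Real.pi) with hM
  have hM0 : 0 ≤ M := by positivity
  -- choose T0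
  have ht1 := (tendsto_tail (A + 1) η hη).const_mul M
  rw [mul_zero] at ht1
  have ht2 : Tendsto (fun T : ℝ => T ^ (1 - η)) atTop atTop := tendsto_rpow_atTop (by linarith)
  obtain ⟨T0, hT0⟩ := ((ht1.eventually (gt_mem_nhds (show (0 : ℝ) < 1 / 2 by norm_num))).and
    (ht2.eventually_ge_atTop D0)).exists_forall_of_atTop
  refine ⟨max T0 1, le_max_right _ _, fun T hT => ?_⟩
  have hT1 : 1 ≤ T := (le_max_right _ _).trans hT
  have hTpos : 0 < T := by linarith
  obtain ⟨hsmall, hlarge⟩ := hT0 T ((le_max_left _ _).trans hT)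
  set D : ℝ := T ^ (1 - η) with hDdef
  have hDpos : 0 < D := by positivity
  have hmain := hD0 D hlarge T
  have hD1 : 1 ≤ D := hD01.trans hlarge
  have hDT : T / D = T ^ η := by
    rw [hDdef, Real.rpow_sub hTpos, Real.rpow_one]
    field_simp
  have hcont : Continuous fun t : ℝ => ‖F (((1 / 2 : ℝ) : ℂ) + t * I)‖ :=
    (hF.continuous.comp (by fun_prop)).norm
  have hnF : ∀ t : ℝ, ‖F (((1 / 2 : ℝ) : ℂ) + t * I)‖ ≤ C * (1 + |t|) ^ A := by
    intro t
    have := hg (((1 / 2 : ℝ) : ℂ) + t * I) (by simp) (by simp; norm_num)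
    simpa using this
  have hgi := integrable_poly_gauss A T D hDpos hA
  have hint : Integrable (fun t : ℝ => ‖F (((1 / 2 : ℝ) : ℂ) + t * I)‖ * Real.exp (-((t - T) / D) ^ 2)) := by
    refine Integrable.mono' (hgi.const_mul C) ?_ ?_
    · exact (hcont.mul (by fun_prop)).aestronglyMeasurable
    · refine Filter.Eventually.of_forall fun t => ?_
      rw [Real.norm_eq_abs, abs_of_nonneg (by positivity), ← mul_assoc]
      exact mul_le_mul_of_nonneg_right (hnF t) (Real.exp_pos _).le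
  have hsplit := integral_add_compl (measurableSet_Ioc (a := T / 2) (b := 3 * T / 2)) hint
  have hfirst : ∫ t in Ioc (T / 2) (3 * T / 2), ‖F (((1 / 2 : ℝ) : ℂ) + t * I)‖ * Real.exp (-((t - T) / D) ^ 2) ≤
      ∫ t in Ioc (T / 2) (3 * T / 2), ‖F (((1 / 2 : ℝ) : ℂ) + t * I)‖ := by
    apply integral_mono_of_nonneg
    · exact Filter.Eventually.of_forall fun t => by positivity
    · exact (hcont.continuousOn.integrableOn_Icc (a := T / 2) (b := 3 * T / 2)).mono_set Ioc_subset_Icc_self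
    · refine Filter.Eventually.of_forall fun t => ?_
      have : Real.exp (-((t - T) / D) ^ 2) ≤ 1 := Real.exp_le_one_iff.mpr (by
        have := sq_nonneg ((t - T) / D)
        linarith)
      calc _ ≤ ‖F (((1 / 2 : ℝ) : ℂ) + t * I)‖ * 1 := mul_le_mul_of_nonneg_left this (norm_nonneg _)
        _ = _ := mul_one _
  have hsecond : ∫ t in (Ioc (T / 2) (3 * T / 2))ᶜ,
      ‖F (((1 / 2 : ℝ) : ℂ) + t * I)‖ * Real.exp (-((t - T) / D) ^ 2) ≤ 1 / 2 := by
    have hgT : Integrable (fun t : ℝ => Real.exp (-(1 / (2 * T ^ 2)) * (t - T) ^ 2)) :=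
      (integrable_exp_neg_mul_sq (b := 1 / (2 * T ^ 2)) (by positivity)).comp_sub_right T
    have hgTval : ∫ t : ℝ, Real.exp (-(1 / (2 * T ^ 2)) * (t - T) ^ 2) = √(2 * Real.pi) * T := by
      have h2 : ∫ t : ℝ, Real.exp (-(1 / (2 * T ^ 2)) * (t - T) ^ 2) =
          ∫ t : ℝ, Real.exp (-(1 / (2 * T ^ 2)) * t ^ 2) :=
        integral_sub_right_eq_self (fun t => Real.exp (-(1 / (2 * T ^ 2)) * t ^ 2)) T
      rw [h2, integral_gaussian]
      have : Real.pi / (1 / (2 * T ^ 2)) = (2 * Real.pi) * T ^ 2 := by field_simp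
      rw [this, Real.sqrt_mul (by positivity), Real.sqrt_sq hTpos.le]
    set K : ℝ := C * CA * 5 ^ A * Real.exp (3 / 2) * (T ^ A * Real.exp (-(T ^ (2 * η) - 1) / 4)) with hK
    have hK0 : 0 ≤ K := by positivity
    have hpt : ∀ t ∈ (Ioc (T / 2) (3 * T / 2))ᶜ,
        ‖F (((1 / 2 : ℝ) : ℂ) + t * I)‖ * Real.exp (-((t - T) / D) ^ 2) ≤
          K * Real.exp (-(1 / (2 * T ^ 2)) * (t - T) ^ 2) := by
      intro t ht
      have htT : T / 2 ≤ |t - T| := by
        by_contra hcon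
        push Not at hcon
        rw [abs_lt] at hcon
        exact ht ⟨by linarith [hcon.1], by linarith [hcon.2]⟩
      set v : ℝ := |t - T| / T with hv
      have hv1 : 1 / 2 ≤ v := by
        rw [hv, div_le_div_iff₀ (by norm_num) hTpos]
        linarith
      have hTv : |t - T| = T * v := by rw [hv]; field_simp
      have h1 : 1 + |t| ≤ 5 * T * v := by
        have h2 : |t| ≤ |t - T| + |T| := by
          have := abs_add_le (t - T) T
          simpa using this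
        rw [abs_of_pos hTpos, hTv] at h2
        have h3 : T ≤ 2 * (T * v) := by nlinarith
        have h4 : 1 ≤ 2 * (T * v) := by linarith
        nlinarith
      have h2 : (1 + |t|) ^ A ≤ 5 ^ A * T ^ A * v ^ A := by
        rw [← Real.mul_rpow (by norm_num) hTpos.le, ← Real.mul_rpow (by positivity) (by linarith)]
        exact Real.rpow_le_rpow (by positivity) h1 hA
      have h3 : v ^ A ≤ CA * Real.exp (3 / 2 + v ^ 2 / 2) := by
        calc v ^ A ≤ (1 + v) ^ A := Real.rpow_le_rpow (by linarith) (by linarith) hA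
          _ ≤ CA * Real.exp (1 + v) := hCA _ (by linarith)
          _ ≤ _ := by
            apply mul_le_mul_of_nonneg_left _ hCA0
            apply Real.exp_le_exp.mpr
            nlinarith [sq_nonneg (v - 1)]
      have h4 : ((t - T) / D) ^ 2 = v ^ 2 * T ^ (2 * η) := by
        have h5 : ((t - T) / D) ^ 2 = (|t - T| / D) ^ 2 := by
          rw [div_pow, div_pow, sq_abs]
        rw [h5, hTv, mul_div_right_comm, hDT, mul_pow, ← Real.rpow_natCast (T ^ η) 2, ← Real.rpow_mul hTpos.le]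
        push_cast
        ring_nf
      have h5 : 1 ≤ T ^ (2 * η) := Real.one_le_rpow hT1 (by positivity)
      have h6 : Real.exp (-((t - T) / D) ^ 2) ≤ Real.exp (-(v ^ 2)) * Real.exp (-(T ^ (2 * η) - 1) / 4) := by
        rw [← Real.exp_add, h4]
        apply Real.exp_le_exp.mpr
        have h7 : 1 / 4 ≤ v ^ 2 := by nlinarith
        nlinarith [mul_nonneg (sub_nonneg.mpr h7) (sub_nonneg.mpr h5)]
      have h8 : (1 / (2 * T ^ 2)) * (t - T) ^ 2 = v ^ 2 / 2 := by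
        rw [← sq_abs (t - T), hTv]
        field_simp
      rw [show -(1 / (2 * T ^ 2)) * (t - T) ^ 2 = -(v ^ 2 / 2) by rw [← h8]; ring]
      calc ‖F (((1 / 2 : ℝ) : ℂ) + t * I)‖ * Real.exp (-((t - T) / D) ^ 2)
          ≤ (C * (1 + |t|) ^ A) * (Real.exp (-(v ^ 2)) * Real.exp (-(T ^ (2 * η) - 1) / 4)) :=
            mul_le_mul (hnF t) h6 (Real.exp_pos _).le (by positivity)
        _ ≤ (C * (5 ^ A * T ^ A * (CA * Real.exp (3 / 2 + v ^ 2 / 2)))) *
            (Real.exp (-(v ^ 2)) * Real.exp (-(T ^ (2 * η) - 1) / 4)) := by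
            apply mul_le_mul_of_nonneg_right _ (by positivity)
            apply mul_le_mul_of_nonneg_left _ hC
            exact h2.trans (mul_le_mul_of_nonneg_left h3 (by positivity))
        _ = C * CA * 5 ^ A * T ^ A * Real.exp (-(T ^ (2 * η) - 1) / 4) *
            (Real.exp (3 / 2 + v ^ 2 / 2) * Real.exp (-(v ^ 2))) := by ring
        _ = C * CA * 5 ^ A * T ^ A * Real.exp (-(T ^ (2 * η) - 1) / 4) *
            (Real.exp (3 / 2) * Real.exp (-(v ^ 2 / 2))) := by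
            rw [← Real.exp_add, ← Real.exp_add]
            congr 2
            ring
        _ = K * Real.exp (-(v ^ 2 / 2)) := by rw [hK]; ring
    calc ∫ t in (Ioc (T / 2) (3 * T / 2))ᶜ, ‖F (((1 / 2 : ℝ) : ℂ) + t * I)‖ * Real.exp (-((t - T) / D) ^ 2)
        ≤ ∫ t in (Ioc (T / 2) (3 * T / 2))ᶜ, K * Real.exp (-(1 / (2 * T ^ 2)) * (t - T) ^ 2) :=
          setIntegral_mono_on hint.integrableOn (hgT.const_mul K).integrableOn measurableSet_Ioc.compl hpt
      _ ≤ ∫ t : ℝ, K * Real.exp (-(1 / (2 * T ^ 2)) * (t - T) ^ 2) :=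
          setIntegral_le_integral (hgT.const_mul K) (Filter.Eventually.of_forall fun t => by positivity)
      _ = K * (√(2 * Real.pi) * T) := by rw [integral_const_mul, hgTval]
      _ = M * (T ^ (A + 1) * Real.exp (-(T ^ (2 * η) - 1) / 4)) := by
          rw [Real.rpow_add hTpos, Real.rpow_one, hM, hK]; ring
      _ ≤ 1 / 2 := hsmall.le
  have : D ≤ (∫ t in Ioc (T / 2) (3 * T / 2), ‖F (((1 / 2 : ℝ) : ℂ) + t * I)‖) + 1 / 2 := by
    calc D ≤ _ := hmain
      _ = _ := hsplit.symm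
      _ ≤ _ := add_le_add hfirst hsecond
  linarith

/-- Integrability of `|F(1/2+it)| t^{-3/4} exp(-d t)` on a half line. -/
lemma integrable_lower {F : ℂ → ℂ} (hF : Differentiable ℂ F) {A C : ℝ} (hA : 0 ≤ A)
    (hg : ∀ s : ℂ, 1 / 2 ≤ s.re → s.re ≤ 2 → ‖F s‖ ≤ C * (1 + |s.im|) ^ A) {T1 : ℝ} (hT1 : 1 ≤ T1)
    {d : ℝ} (hd : 0 < d) :
    IntegrableOn (fun t : ℝ => ‖F (((1 / 2 : ℝ) : ℂ) + t * I)‖ * t ^ (-(3 / 4) : ℝ) * Real.exp (-(d * t))) (Ioi T1) := by
  have hC : 0 ≤ C := by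
    have h1 := (norm_nonneg _).trans (hg 1 (by norm_num) (by norm_num))
    simpa using h1
  have hcont : Continuous fun t : ℝ => ‖F (((1 / 2 : ℝ) : ℂ) + t * I)‖ :=
    (hF.continuous.comp (by fun_prop)).norm
  have h0 : IntegrableOn (fun t : ℝ => t ^ A * Real.exp (-d * t)) (Ioi 0) :=
    (integrableOn_rpow_mul_exp_neg_mul_rpow (s := A) (p := 1) (by linarith) one_pos hd).congr_fun
      (fun t _ => by simp only [Real.rpow_one]) measurableSet_Ioi
  have h1 : IntegrableOn (fun t : ℝ => C * 2 ^ A * (t ^ A * Real.exp (-d * t))) (Ioi T1) :=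
    (h0.mono_set (Ioi_subset_Ioi (by linarith))).const_mul _
  refine Integrable.mono' h1 ?_ ?_
  · apply ContinuousOn.aestronglyMeasurable _ measurableSet_Ioi
    apply ContinuousOn.mul
    · apply ContinuousOn.mul hcont.continuousOn
      apply ContinuousOn.rpow_const continuousOn_id
      intro x hx
      left
      have : T1 < x := hx
      simp only [id]
      linarith
    · fun_prop
  · rw [ae_restrict_iff' measurableSet_Ioi]
    refine Filter.Eventually.of_forall fun t ht => ?_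
    have ht' : T1 < t := ht
    have ht1 : 1 ≤ t := by linarith
    rw [Real.norm_eq_abs, abs_of_nonneg (by positivity)]
    have h2 : ‖F (((1 / 2 : ℝ) : ℂ) + t * I)‖ ≤ C * (1 + |t|) ^ A := by
      have := hg (((1 / 2 : ℝ) : ℂ) + t * I) (by simp) (by simp; norm_num)
      simpa using this
    have h3 : (1 + |t|) ^ A ≤ 2 ^ A * t ^ A := by
      rw [← Real.mul_rpow (by norm_num) (by linarith)]
      apply Real.rpow_le_rpow (by positivity) _ hA
      rw [abs_of_pos (by linarith)]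
      linarith
    have h4 : t ^ (-(3 / 4) : ℝ) ≤ 1 := Real.rpow_le_one_of_one_le_of_nonpos ht1 (by norm_num)
    calc ‖F (((1 / 2 : ℝ) : ℂ) + t * I)‖ * t ^ (-(3 / 4) : ℝ) * Real.exp (-(d * t))
        ≤ (C * (2 ^ A * t ^ A)) * 1 * Real.exp (-(d * t)) := by
          apply mul_le_mul_of_nonneg_right _ (Real.exp_pos _).le
          apply mul_le_mul (h2.trans (mul_le_mul_of_nonneg_left h3 hC)) h4 (by positivity) (by positivity)
      _ = _ := by rw [neg_mul]; ring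

/-- F3. -/
theorem lower_int {F : ℂ → ℂ} {a : ℕ → ℂ} (hF : Differentiable ℂ F) {A C : ℝ} (hA : 0 ≤ A)
    (hg : ∀ s : ℂ, 1 / 2 ≤ s.re → s.re ≤ 2 → ‖F s‖ ≤ C * (1 + |s.im|) ^ A)
    (hs : ∀ s : ℂ, 1 < s.re → LSeriesSummable a s) (he : ∀ s : ℂ, 1 < s.re → F s = LSeries a s) (ha1 : a 1 = 1)
    {η : ℝ} (hη : 0 < η) (hη1 : η ≤ 1 / 2) {T1 : ℝ} (hT1 : 1 ≤ T1) :
    ∃ c d0 : ℝ, 0 < c ∧ 0 < d0 ∧ ∀ d : ℝ, 0 < d → d ≤ d0 →
      c * d ^ (η - 1 / 4) ≤
        ∫ t in Ioi T1, ‖F (((1 / 2 : ℝ) : ℂ) + t * I)‖ * t ^ (-(3 / 4) : ℝ) * Real.exp (-(d * t)) := by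
  obtain ⟨T0, hT01, hT0⟩ := short_mean hF hA hg hs he ha1 hη hη1
  refine ⟨(3 / 2 : ℝ) ^ (-(3 / 4) : ℝ) * Real.exp (-(3 / 2)) / 2, 1 / (T0 + 2 * T1), by positivity, by positivity,
    fun d hd hdd => ?_⟩
  set T : ℝ := 1 / d with hT
  have hTT : T0 + 2 * T1 ≤ T := by
    rw [hT, le_div_iff₀ hd]
    rw [le_div_iff₀ (by positivity)] at hdd
    linarith
  have hTpos : 0 < T := by positivity
  have hmain := hT0 T (by linarith)
  have hsub : Ioc (T / 2) (3 * T / 2) ⊆ Ioi T1 := by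
    intro t ht
    have : T / 2 < t := ht.1
    show T1 < t
    linarith
  have hcont : Continuous fun t : ℝ => ‖F (((1 / 2 : ℝ) : ℂ) + t * I)‖ :=
    (hF.continuous.comp (by fun_prop)).norm
  have hil := integrable_lower hF hA hg hT1 hd
  have h1 : ∫ t in Ioc (T / 2) (3 * T / 2), ‖F (((1 / 2 : ℝ) : ℂ) + t * I)‖ * t ^ (-(3 / 4) : ℝ) * Real.exp (-(d * t)) ≤
      ∫ t in Ioi T1, ‖F (((1 / 2 : ℝ) : ℂ) + t * I)‖ * t ^ (-(3 / 4) : ℝ) * Real.exp (-(d * t)) := by
    apply setIntegral_mono_set hil _ (Filter.Eventually.of_forall hsub)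
    rw [Filter.EventuallyLE, ae_restrict_iff' measurableSet_Ioi]
    refine Filter.Eventually.of_forall fun t ht => ?_
    have ht' : T1 < t := ht
    have : 0 < t := by linarith
    simp only [Pi.zero_apply]
    positivity
  refine le_trans ?_ h1
  have h2 : ∫ t in Ioc (T / 2) (3 * T / 2), ((3 / 2 * T) ^ (-(3 / 4) : ℝ) * Real.exp (-(3 / 2))) *
      ‖F (((1 / 2 : ℝ) : ℂ) + t * I)‖ ≤
      ∫ t in Ioc (T / 2) (3 * T / 2), ‖F (((1 / 2 : ℝ) : ℂ) + t * I)‖ * t ^ (-(3 / 4) : ℝ) * Real.exp (-(d * t)) := by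
    apply setIntegral_mono_on
    · exact ((hcont.const_mul _).continuousOn.integrableOn_Icc (a := T / 2) (b := 3 * T / 2)).mono_set
        Ioc_subset_Icc_self
    · exact hil.mono_set hsub
    · exact measurableSet_Ioc
    · intro t ht
      have ht1 : 0 < t := lt_trans (by positivity) ht.1
      have h3 : (3 / 2 * T) ^ (-(3 / 4) : ℝ) ≤ t ^ (-(3 / 4) : ℝ) := by
        apply Real.rpow_le_rpow_of_nonpos ht1 _ (by norm_num)
        linarith [ht.2]
      have h4 : Real.exp (-(3 / 2)) ≤ Real.exp (-(d * t)) := by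
        apply Real.exp_le_exp.mpr
        have : d * t ≤ d * (3 * T / 2) := mul_le_mul_of_nonneg_left ht.2 hd.le
        have h5 : d * (3 * T / 2) = 3 / 2 := by rw [hT]; field_simp
        linarith
      calc ((3 / 2 * T) ^ (-(3 / 4) : ℝ) * Real.exp (-(3 / 2))) * ‖F (((1 / 2 : ℝ) : ℂ) + t * I)‖
          ≤ (t ^ (-(3 / 4) : ℝ) * Real.exp (-(d * t))) * ‖F (((1 / 2 : ℝ) : ℂ) + t * I)‖ := by
            apply mul_le_mul_of_nonneg_right _ (norm_nonneg _)
            exact mul_le_mul h3 h4 (Real.exp_pos _).le (by positivity)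
        _ = _ := by ring
  refine le_trans ?_ h2
  rw [integral_const_mul]
  have h3 : (3 / 2 * T) ^ (-(3 / 4) : ℝ) * Real.exp (-(3 / 2)) * (T ^ (1 - η) / 2) ≤
      (3 / 2 * T) ^ (-(3 / 4) : ℝ) * Real.exp (-(3 / 2)) *
        ∫ t in Ioc (T / 2) (3 * T / 2), ‖F (((1 / 2 : ℝ) : ℂ) + t * I)‖ :=
    mul_le_mul_of_nonneg_left hmain (by positivity)
  refine le_trans (le_of_eq ?_) h3
  have h4 : d ^ (η - 1 / 4) = T ^ (1 / 4 - η) := by
    rw [hT, Real.div_rpow zero_le_one hd.le, Real.one_rpow, eq_div_iff (by positivity), ← Real.rpow_add hd,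
      show η - 1 / 4 + (1 / 4 - η) = 0 by ring, Real.rpow_zero]
  rw [h4, Real.mul_rpow (by norm_num) hTpos.le]
  have h5 : T ^ (1 / 4 - η) = T ^ (-(3 / 4) : ℝ) * T ^ (1 - η) := by
    rw [← Real.rpow_add hTpos]
    congr 1
    ring
  rw [h5]
  ring

end Pool.Agent.Helper83.BDF
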