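import Pool.Agent.Helper19.BD.Interface
import Pool.Agent.Helper97.BD.Stir2
import Pool.Agent.Helper83.BDF.Lower

/-!
MP_bd232a_nt, part F1 and F2: the Gamma factor on the critical line is asymptotically a constant times
`K^s Γ(3s/2 - 1)`; lower bound for the Hardy integral if there are finitely many critical zeros.
-/

open Complex MeasureTheory Set Filter Topology

namespace Pool.Agent.Helper83.BDF

open Pool.Agent.Helper19.BD

noncomputable def gam (nu : Fin 3 → ℝ) (s : ℂ) : ℂ := (7 : ℂ) ^ s * ∏ j, Gammaℝ (s - I * nu j)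

noncomputable def K3 : ℝ := 7 * (3 * Real.pi) ^ (-(3 / 2) : ℝ)

lemma K3_pos : 0 < K3 := by unfold K3; positivity

lemma log_K3 : Real.log K3 = Real.log 7 - 3 / 2 * (Real.log 3 + Real.log Real.pi) := by
  unfold K3
  rw [Real.log_mul (by norm_num) (by positivity), Real.log_rpow (by positivity),
    Real.log_mul (by norm_num) Real.pi_pos.ne']
  ring

noncomputable def gam3 (s : ℂ) : ℂ := (K3 : ℂ) ^ s * Gamma (3 * s / 2 - 1)

lemma gam_ratio (nu : Fin 3 → ℝ) (hnu : ∑ j, nu j = 0) : ∃ C T : ℝ, 0 < C ∧ 1 ≤ T ∧ ∀ t : ℝ, T ≤ t → ∃ R : ℂ, ‖R‖ ≤ C / t ∧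
    gam nu (((1 / 2 : ℝ) : ℂ) + t * I) =
      gam3 (((1 / 2 : ℝ) : ℂ) + t * I) * ((2 * Real.pi * 3 ^ (3 / 2 : ℝ) : ℝ) : ℂ) * cexp R := by
  obtain ⟨C, T, hC, hT, hst⟩ := stirling_vert (1 + |nu 0| + |nu 1| + |nu 2|)
  refine ⟨2 * C * 3 + C, 2 * T, by positivity, by linarith, fun t ht => ?_⟩
  have htpos : 0 < t := by linarith
  have hb : ∀ j : Fin 3, ‖((1 / 4 : ℂ) - I * nu j / 2)‖ ≤ 1 + |nu 0| + |nu 1| + |nu 2| := by
    intro j
    have h1 : ‖((1 / 4 : ℂ) - I * nu j / 2)‖ ≤ 1 / 4 + |nu j| / 2 := by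
      refine (norm_sub_le _ _).trans ?_
      simp
    have h2 : |nu j| ≤ |nu 0| + |nu 1| + |nu 2| := by
      have h0 := abs_nonneg (nu 0)
      have h1 := abs_nonneg (nu 1)
      have h2 := abs_nonneg (nu 2)
      fin_cases j <;> simp <;> linarith
    have h3 : 0 ≤ |nu j| := abs_nonneg _
    linarith
  obtain ⟨R0, hR0, e0⟩ := hst _ (hb 0) (t / 2) (by linarith)
  obtain ⟨R1, hR1, e1⟩ := hst _ (hb 1) (t / 2) (by linarith)
  obtain ⟨R2, hR2, e2⟩ := hst _ (hb 2) (t / 2) (by linarith)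
  obtain ⟨R3, hR3, e3⟩ := hst (-(1 / 4)) (by
    have := abs_nonneg (nu 0)
    have := abs_nonneg (nu 1)
    have := abs_nonneg (nu 2)
    simp
    linarith) (3 * t / 2) (by linarith)
  refine ⟨R0 + R1 + R2 - R3, ?_, ?_⟩
  · have h1 : C / (t / 2) = 2 * C / t := by field_simp
    rw [h1] at hR0 hR1 hR2
    have h2 : C / (3 * t / 2) ≤ C / t := by
      apply div_le_div_of_nonneg_left hC.le htpos
      linarith
    calc ‖R0 + R1 + R2 - R3‖ ≤ ‖R0‖ + ‖R1‖ + ‖R2‖ + ‖R3‖ := by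
          refine (norm_sub_le _ _).trans ?_
          have := norm_add₃_le (a := R0) (b := R1) (c := R2)
          linarith
      _ ≤ 2 * C / t + 2 * C / t + 2 * C / t + C / t := by linarith
      _ = _ := by ring
  · unfold gam gam3
    have hG : ∀ j : Fin 3, Gammaℝ ((((1 / 2 : ℝ) : ℂ) + t * I) - I * nu j) =
        cexp (Real.log Real.pi * (-((((1 / 2 : ℝ) : ℂ) + t * I) - I * nu j) / 2)) *
          Gamma (((1 / 4 : ℂ) - I * nu j / 2) + ((t / 2 : ℝ) : ℂ) * I) := by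
      intro j
      rw [Gammaℝ_def, cpow_def_of_ne_zero (by exact_mod_cast Real.pi_pos.ne'), ← ofReal_log Real.pi_pos.le]
      congr 2
      push_cast
      ring
    rw [Fin.prod_univ_three, hG, hG, hG, e0, e1, e2,
      show 3 * (((1 / 2 : ℝ) : ℂ) + t * I) / 2 - 1 = -(1 / 4) + ((3 * t / 2 : ℝ) : ℂ) * I by push_cast; ring, e3,
      cpow_def_of_ne_zero (by norm_num : (7 : ℂ) ≠ 0), cpow_def_of_ne_zero (by exact_mod_cast K3_pos.ne'),
      ← ofReal_log K3_pos.le, log_K3]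
    have h7 : log 7 = ((Real.log 7 : ℝ) : ℂ) := by
      rw [ofReal_log (by norm_num)]; norm_num
    have hc : ((2 * Real.pi * 3 ^ (3 / 2 : ℝ) : ℝ) : ℂ) =
        cexp ((Real.log (2 * Real.pi) + 3 / 2 * Real.log 3 : ℝ) : ℂ) := by
      rw [← ofReal_exp, Real.exp_add, Real.exp_log (by positivity), Real.rpow_def_of_pos (by norm_num)]
      congr 3
      ring
    have hl : Real.log (3 * t / 2) = Real.log 3 + Real.log (t / 2) := by
      rw [mul_div_assoc, Real.log_mul (by norm_num) (by positivity)]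
    have hnu2 : ((nu 2 : ℝ) : ℂ) = -(nu 0 : ℂ) - nu 1 := by
      rw [Fin.sum_univ_three] at hnu
      have : nu 2 = -nu 0 - nu 1 := by linarith
      rw [this]; push_cast; ring
    rw [h7, hc]
    simp only [← Complex.exp_add]
    congr 1
    unfold stL
    rw [hl, hnu2]
    push_cast
    ring_nf
    try rw [I_sq]
    try ring

lemma half_eq (t : ℝ) : 3 * (((1 / 2 : ℝ) : ℂ) + t * I) / 2 - 1 = -(1 / 4) + ((3 * t / 2 : ℝ) : ℂ) * I := by
  push_cast; ring

lemma norm_K3_cpow (s : ℂ) : ‖(K3 : ℂ) ^ s‖ = K3 ^ s.re := by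
  rw [norm_cpow_eq_rpow_re_of_pos K3_pos]

/-- lower bound of `gam3` on the critical line -/
lemma gam3_lower : ∃ c T : ℝ, 0 < c ∧ 1 ≤ T ∧ ∀ t : ℝ, T ≤ t →
    c * t ^ (-(3 / 4) : ℝ) * Real.exp (-(3 * Real.pi / 4 * t)) ≤ ‖gam3 (((1 / 2 : ℝ) : ℂ) + t * I)‖ := by
  obtain ⟨C, T, hC, hT, hst⟩ := stirling_vert 1
  refine ⟨K3 ^ (1 / 2 : ℝ) * Real.exp (Real.log (2 * Real.pi) / 2 - 3 / 4 * Real.log (3 / 2) - C), T,
    by have := K3_pos; positivity, hT, fun t ht => ?_⟩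
  have htpos : 0 < t := by linarith
  obtain ⟨R3, hR3, e3⟩ := hst (-(1 / 4)) (by simp; norm_num) (3 * t / 2) (by linarith)
  have hR : ‖R3‖ ≤ C := by
    refine hR3.trans ?_
    rw [div_le_iff₀ (by positivity)]
    nlinarith
  have hre : -C ≤ R3.re := by
    have := (abs_le.mp (abs_re_le_norm R3)).1
    linarith
  unfold gam3
  rw [half_eq, e3, norm_mul, norm_K3_cpow, Complex.norm_exp]
  have h1 : ((((1 / 2 : ℝ) : ℂ) + t * I)).re = 1 / 2 := by simp
  rw [h1]
  have h2 : (stL (-(1 / 4)) (3 * t / 2) + R3).re =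
      -(3 * Real.pi / 4 * t) + (-(3 / 4)) * Real.log (3 * t / 2) + Real.log (2 * Real.pi) / 2 + R3.re := by
    unfold stL
    have h3 : (-(1 / 4 : ℂ) - 1 / 2) = ((-(3 / 4) : ℝ) : ℂ) := by push_cast; ring
    rw [h3]
    simp only [add_re, sub_re, mul_re, ofReal_re, ofReal_im, I_re, I_im, add_im, mul_im]
    ring
  rw [h2]
  have hl : Real.log (3 * t / 2) = Real.log (3 / 2) + Real.log t := by
    rw [show 3 * t / 2 = 3 / 2 * t by ring, Real.log_mul (by norm_num) htpos.ne']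
  rw [hl]
  have h3 : t ^ (-(3 / 4) : ℝ) = Real.exp (-(3 / 4) * Real.log t) := by
    rw [Real.rpow_def_of_pos htpos]; ring_nf
  rw [h3, mul_assoc, mul_assoc]
  apply mul_le_mul_of_nonneg_left _ (by have := K3_pos; positivity)
  rw [← Real.exp_add, ← Real.exp_add]
  apply Real.exp_le_exp.mpr
  linarith

/-- upper bound of `gam3` in the strip `1/2 ≤ Re s ≤ 2`, `|Im s| ≥ 1` -/
lemma gam3_upper : ∃ C A : ℝ, 0 < C ∧ 0 ≤ A ∧ ∀ s : ℂ, 1 / 2 ≤ s.re → s.re ≤ 2 → 1 ≤ |s.im| →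
    ‖gam3 s‖ ≤ C * (1 + |s.im|) ^ A * Real.exp (-(3 * Real.pi / 4 * |s.im|)) := by
  obtain ⟨C, A, hC, hA, h⟩ := Gamma_strip_bound (-(1 / 4)) 2
  refine ⟨(1 + K3) ^ (2 : ℝ) * C * 2 ^ A, A, by have := K3_pos; positivity, hA, fun s h1 h2 h3 => ?_⟩
  unfold gam3
  have e1 : (3 * s / 2 - 1).re = 3 * s.re / 2 - 1 := by
    have : 3 * s / 2 - 1 = ((3 / 2 : ℝ) : ℂ) * s - ((1 : ℝ) : ℂ) := by push_cast; ring
    rw [this, sub_re, re_ofReal_mul, ofReal_re]; ring
  have e2 : (3 * s / 2 - 1).im = 3 / 2 * s.im := by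
    have : 3 * s / 2 - 1 = ((3 / 2 : ℝ) : ℂ) * s - ((1 : ℝ) : ℂ) := by push_cast; ring
    rw [this, sub_im, im_ofReal_mul, ofReal_im]; ring
  have e3 : |(3 * s / 2 - 1).im| = 3 / 2 * |s.im| := by
    rw [e2, abs_mul]; norm_num
  have h4 := h (3 * s / 2 - 1) (by rw [e1]; linarith) (by rw [e1]; linarith) (by rw [e3]; linarith)
  rw [e3] at h4
  rw [norm_mul, norm_K3_cpow]
  have h5 : K3 ^ s.re ≤ (1 + K3) ^ (2 : ℝ) := by
    calc K3 ^ s.re ≤ (1 + K3) ^ s.re := Real.rpow_le_rpow K3_pos.le (by linarith) (by linarith)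
      _ ≤ _ := Real.rpow_le_rpow_of_exponent_le (by linarith [K3_pos]) h2
  have h6 : (3 / 2 * |s.im|) ^ A ≤ 2 ^ A * (1 + |s.im|) ^ A := by
    rw [← Real.mul_rpow (by norm_num) (by positivity)]
    apply Real.rpow_le_rpow (by positivity) _ hA
    linarith [abs_nonneg s.im]
  calc K3 ^ s.re * ‖Gamma (3 * s / 2 - 1)‖
      ≤ (1 + K3) ^ (2 : ℝ) * (C * (2 ^ A * (1 + |s.im|) ^ A) * Real.exp (-(Real.pi * (3 / 2 * |s.im|) / 2))) := by
        apply mul_le_mul h5 _ (norm_nonneg _) (by have := K3_pos; positivity)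
        refine h4.trans ?_
        apply mul_le_mul_of_nonneg_right _ (Real.exp_pos _).le
        exact mul_le_mul_of_nonneg_left h6 hC.le
    _ = _ := by
        rw [show -(Real.pi * (3 / 2 * |s.im|) / 2) = -(3 * Real.pi / 4 * |s.im|) by ring]
        ring

/-- `gam3` is differentiable off its poles; in the strip only `s = 2/3` is a pole. -/
lemma gam3_differentiableAt {s : ℂ} (h : 1 / 2 ≤ s.re) (h2 : s ≠ 2 / 3) : DifferentiableAt ℂ gam3 s := by
  unfold gam3
  apply DifferentiableAt.mul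
  · exact (differentiableAt_id).const_cpow (Or.inl (by exact_mod_cast K3_pos.ne'))
  · have hG : DifferentiableAt ℂ Gamma (3 * s / 2 - 1) := by
      apply differentiableAt_Gamma
      intro m hm
      have hre : (3 * s / 2 - 1).re = -(m : ℝ) := by rw [hm]; simp
      have e1 : (3 * s / 2 - 1).re = 3 * s.re / 2 - 1 := by
        have : 3 * s / 2 - 1 = ((3 / 2 : ℝ) : ℂ) * s - ((1 : ℝ) : ℂ) := by push_cast; ring
        rw [this, sub_re, re_ofReal_mul, ofReal_re]; ring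
      rw [e1] at hre
      have hm0 : (m : ℝ) < 1 := by linarith
      have hm1 : m = 0 := by
        have : m < 1 := by exact_mod_cast hm0
        omega
      subst hm1
      apply h2
      have h5 : 3 * s / 2 - 1 = 0 := by simpa using hm
      linear_combination (2 / 3) * h5
    have hin : DifferentiableAt ℂ (fun s : ℂ => 3 * s / 2 - 1) s := by fun_prop
    exact hG.comp s hin

lemma gam3_continuousOn : ContinuousOn gam3 {s : ℂ | 1 / 2 ≤ s.re ∧ s ≠ 2 / 3} := fun _ hs =>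
  (gam3_differentiableAt hs.1 hs.2).continuousAt.continuousWithinAt

lemma gam3_half_continuous : Continuous fun t : ℝ => gam3 (((1 / 2 : ℝ) : ℂ) + t * I) := by
  apply gam3_continuousOn.comp_continuous (by fun_prop)
  intro t
  refine ⟨by simp, fun h => ?_⟩
  have := congrArg Complex.re h
  simp at this
  norm_num at this

/-- upper bound of `gam3` on the critical line, all `t` -/
lemma gam3_half_upper : ∃ C A : ℝ, 0 < C ∧ 0 ≤ A ∧ ∀ t : ℝ,
    ‖gam3 (((1 / 2 : ℝ) : ℂ) + t * I)‖ ≤ C * (1 + |t|) ^ A * Real.exp (-(3 * Real.pi / 4 * |t|)) := by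
  obtain ⟨C, A, hC, hA, h⟩ := gam3_upper
  obtain ⟨B, hB⟩ := (isCompact_Icc (a := (-1 : ℝ)) (b := 1)).exists_bound_of_continuousOn
    gam3_half_continuous.continuousOn
  have hB0 : 0 ≤ B := (norm_nonneg _).trans (hB 0 (by constructor <;> norm_num))
  refine ⟨C + B * Real.exp (3 * Real.pi / 4), A, by positivity, hA, fun t => ?_⟩
  rcases le_or_gt 1 |t| with ht | ht
  · have h1 := h (((1 / 2 : ℝ) : ℂ) + t * I) (by simp) (by simp; norm_num) (by simpa using ht)
    have h2 : ((((1 / 2 : ℝ) : ℂ) + t * I)).im = t := by simp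
    rw [h2] at h1
    refine h1.trans ?_
    apply mul_le_mul_of_nonneg_right _ (Real.exp_pos _).le
    apply mul_le_mul_of_nonneg_right _ (by positivity)
    have : 0 ≤ B * Real.exp (3 * Real.pi / 4) := by positivity
    linarith
  · have h1 := hB t (abs_le.mp ht.le)
    have h2 : 1 ≤ (1 + |t|) ^ A := Real.one_le_rpow (by linarith [abs_nonneg t]) hA
    have h3 : 1 ≤ Real.exp (3 * Real.pi / 4) * Real.exp (-(3 * Real.pi / 4 * |t|)) := by
      rw [← Real.exp_add]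
      apply Real.one_le_exp
      nlinarith [Real.pi_pos]
    calc ‖gam3 (((1 / 2 : ℝ) : ℂ) + t * I)‖ ≤ B * 1 * 1 := by linarith
      _ ≤ B * (1 + |t|) ^ A * (Real.exp (3 * Real.pi / 4) * Real.exp (-(3 * Real.pi / 4 * |t|))) := by
        apply mul_le_mul (mul_le_mul_of_nonneg_left h2 hB0) h3 (by norm_num) (by positivity)
      _ = (B * Real.exp (3 * Real.pi / 4)) * (1 + |t|) ^ A * Real.exp (-(3 * Real.pi / 4 * |t|)) := by ring
      _ ≤ _ := by
        apply mul_le_mul_of_nonneg_right _ (Real.exp_pos _).le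
        apply mul_le_mul_of_nonneg_right _ (by positivity)
        linarith

end Pool.Agent.Helper83.BDF
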