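import Pool.Agent.Helper83.BDF.Hardy

/-!
MP_bd232a_nt, part F: statements connecting the exponential sum (part E) with the Hardy argument (part F).

* `LatticeE` : the exponential sum bound for a full lattice in `ℝ³` and a test function supported off the coordinate planes
  (deduced in F6 from Theorem E by the octant / covering argument).
* `SumBound H` : the bound for the Dirichlet coefficient sum of the Hardy integral (deduced in F5 from `LatticeE`).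
-/

open Complex MeasureTheory Set Filter Topology
open scoped ContDiff

namespace Pool.Agent.Helper83.BDF

open Pool.Agent.Helper19.BD

/-- the lattice point `A y` -/
noncomputable def lp (A : Matrix (Fin 3) (Fin 3) ℝ) (y : Fin 3 → ℤ) : Fin 3 → ℝ := A.mulVec (fun i => (y i : ℝ))

/-- `|x_1 x_2 x_3|^{2/3}` -/
noncomputable def phi (x : Fin 3 → ℝ) : ℝ := |∏ j, x j| ^ (2 / 3 : ℝ)

def LatticeE : Prop :=
  ∀ A : Matrix (Fin 3) (Fin 3) ℝ, A.det ≠ 0 → ∀ G : (Fin 3 → ℝ) → ℂ, ContDiff ℝ ∞ G → HasCompactSupport G →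
    tsupport G ⊆ {x | ∀ j, x j ≠ 0} → ∀ κ₁ κ₂ : ℝ, 0 < κ₁ →
      ∃ C δ : ℝ, 0 < δ ∧ ∀ X κ : ℝ, 1 ≤ X → κ₁ ≤ κ → κ ≤ κ₂ →
        ‖∑' y : Fin 3 → ℤ, G (X⁻¹ • lp A y) * cexp (2 * Real.pi * I * ((κ * phi (lp A y) : ℝ) : ℂ))‖ ≤ C * X ^ (5 / 2 - δ)

/-- the term `a_n n^{-2/3} exp (-(n/K)^{2/3} (sin(2d/3) + i cos(2d/3)))` -/
noncomputable def hterm (H : HeckeF) (d : ℝ) (n : ℕ) : ℂ :=
  H.a n * (((n : ℝ) ^ (-(2 / 3) : ℝ) : ℝ) : ℂ) *
    cexp (-((((n : ℝ) / K3) ^ (2 / 3 : ℝ) : ℝ) : ℂ) * ((Real.sin (2 * d / 3) : ℂ) + Real.cos (2 * d / 3) * I))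

def SumBound (H : HeckeF) : Prop :=
  ∃ C δ : ℝ, 0 < δ ∧ ∀ d : ℝ, 0 < d → d ≤ 1 → ‖∑' n : ℕ, hterm H d n‖ ≤ C * d ^ (δ - 1 / 4)

end Pool.Agent.Helper83.BDF
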