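import Pool.Agent.Helper83.BDF.EStat
import Pool.Agent.Helper97.BD.MellinExp
import Pool.Agent.Helper97.BD.Contour

/-!
Block F4 of MP_bd232a_nt (part F): the Hardy integral in terms of the coefficient sum.
-/

open Complex MeasureTheory Set Filter Topology

namespace Pool.Agent.Helper83.BDF

open Pool.Agent.Helper19.BD

/-- the exponential weight -/
noncomputable def ew (θ : ℝ) (s : ℂ) : ℂ := cexp (-(I * θ * (s - 1 / 2)))

lemma norm_ew (θ : ℝ) (s : ℂ) : ‖ew θ s‖ = Real.exp (θ * s.im) := by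
  unfold ew
  rw [Complex.norm_exp]
  congr 1
  simp [mul_assoc]
  
lemma ew_half (θ t : ℝ) : ew θ (hf t) = ((Real.exp (θ * t) : ℝ) : ℂ) := by
  unfold ew
  rw [ofReal_exp]
  congr 1
  simp only [hf]
  push_cast
  have : I ^ 2 = -1 := I_sq
  linear_combination (-(θ : ℂ) * t) * this

lemma differentiable_ew (θ : ℝ) : Differentiable ℂ (ew θ) := by
  unfold ew
  fun_prop

/-- the point `2 + i t` -/
noncomputable abbrev tf (t : ℝ) : ℂ := ((2 : ℝ) : ℂ) + t * I

lemma gam3_two_continuous : Continuous fun t : ℝ => gam3 (tf t) := by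
  apply gam3_continuousOn.comp_continuous (by fun_prop)
  intro t
  refine ⟨by simp; norm_num, fun h => ?_⟩
  have := congrArg Complex.re h
  simp at this
  norm_num at this

/-- upper bound of `gam3` on `Re s = 2`, all `t` -/
lemma gam3_two_upper : ∃ C A : ℝ, 0 < C ∧ 0 ≤ A ∧ ∀ t : ℝ,
    ‖gam3 (tf t)‖ ≤ C * (1 + |t|) ^ A * Real.exp (-(3 * Real.pi / 4 * |t|)) := by
  obtain ⟨C, A, hC, hA, h⟩ := gam3_upper
  obtain ⟨B, hB⟩ := (isCompact_Icc (a := (-1 : ℝ)) (b := 1)).exists_bound_of_continuousOn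
    gam3_two_continuous.continuousOn
  have hB0 : 0 ≤ B := (norm_nonneg _).trans (hB 0 (by constructor <;> norm_num))
  refine ⟨C + B * Real.exp (3 * Real.pi / 4), A, by positivity, hA, fun t => ?_⟩
  rcases le_or_gt 1 |t| with ht | ht
  · have h1 := h (tf t) (by simp; norm_num) (by simp) (by simpa using ht)
    have h2 : (tf t).im = t := by simp
    rw [h2] at h1
    refine h1.trans ?_
    apply mul_le_mul_of_nonneg_right _ (Real.exp_pos _).le
    apply mul_le_mul_of_nonneg_right _ (by positivity)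
    have : 0 ≤ B * Real.exp (3 * Real.pi / 4) := by positivity
    linarith
  · have h1 := hB t (abs_le.mp ht.le)
    have h2 : 1 ≤ (1 + |t|) ^ A := Real.one_le_rpow (by linarith [abs_nonneg t]) hA
    have h3 : 1 ≤ Real.exp (3 * Real.pi / 4) * Real.exp (-(3 * Real.pi / 4 * |t|)) := by
      rw [← Real.exp_add]
      apply Real.one_le_exp
      nlinarith [Real.pi_pos]
    calc ‖gam3 (tf t)‖ ≤ B * 1 * 1 := by linarith
      _ ≤ B * (1 + |t|) ^ A * (Real.exp (3 * Real.pi / 4) * Real.exp (-(3 * Real.pi / 4 * |t|))) := by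
        apply mul_le_mul (mul_le_mul_of_nonneg_left h2 hB0) h3 (by norm_num) (by positivity)
      _ = (B * Real.exp (3 * Real.pi / 4)) * (1 + |t|) ^ A * Real.exp (-(3 * Real.pi / 4 * |t|)) := by ring
      _ ≤ _ := by
        apply mul_le_mul_of_nonneg_right _ (Real.exp_pos _).le
        apply mul_le_mul_of_nonneg_right _ (by positivity)
        linarith

lemma integrable_two {d : ℝ} (hd : 0 < d) (hd1 : d ≤ 1) :
    Integrable fun t : ℝ => gam3 (tf t) * ew (3 * Real.pi / 4 - d) (tf t) := by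
  obtain ⟨C, A, hC, hA, h⟩ := gam3_two_upper
  have hpi3 := Real.pi_gt_three
  refine Integrable.mono' ((integrable_poly_exp A hA hd).const_mul C) ?_ ?_
  · exact (gam3_two_continuous.mul ((differentiable_ew _).continuous.comp (by fun_prop))).aestronglyMeasurable
  · refine Filter.Eventually.of_forall fun t => ?_
    rw [norm_mul, norm_ew]
    have h2 : (tf t).im = t := by simp
    rw [h2]
    calc ‖gam3 (tf t)‖ * Real.exp ((3 * Real.pi / 4 - d) * t)
        ≤ (C * (1 + |t|) ^ A * Real.exp (-(3 * Real.pi / 4 * |t|))) * Real.exp ((3 * Real.pi / 4 - d) * |t|) := by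
          apply mul_le_mul (h t) _ (Real.exp_pos _).le (by positivity)
          apply Real.exp_le_exp.mpr
          exact mul_le_mul_of_nonneg_left (le_abs_self t) (by linarith)
      _ = C * ((1 + |t|) ^ A * Real.exp (-(d * |t|))) := by
          rw [mul_assoc, mul_assoc, ← Real.exp_add]
          ring_nf

/-- the integral of one term on `Re s = 2` -/
lemma term_integral (H : HeckeF) {d : ℝ} (hd : 0 < d) (hd1 : d ≤ 1) (n : ℕ) :
    ∫ t : ℝ, LSeries.term H.a (tf t) n * (gam3 (tf t) * ew (3 * Real.pi / 4 - d) (tf t)) =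
      ((K3 ^ (2 / 3 : ℝ) * (4 * Real.pi / 3) : ℝ) : ℂ) * cexp (-(I * ((3 * Real.pi / 4 - d : ℝ) : ℂ) / 6)) *
        hterm H d n := by
  rcases eq_or_ne n 0 with rfl | hn
  · simp [hterm, H.a_zero]
  have hnpos : (0 : ℝ) < n := by exact_mod_cast Nat.pos_of_ne_zero hn
  have hK := K3_pos
  have hpi3 := Real.pi_gt_three
  set θ : ℝ := 3 * Real.pi / 4 - d with hθ
  set L : ℝ := Real.log K3 - Real.log n with hL
  set ζ : ℂ := ((-(2 / 3) * L : ℝ) : ℂ) + ((2 * θ / 3 : ℝ) : ℂ) * I with hζ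
  have hζim : ζ.im = 2 * θ / 3 := by rw [hζ]; simp
  have him : |ζ.im| < Real.pi / 2 := by
    rw [hζim, abs_lt]
    constructor <;> rw [hθ] <;> linarith
  obtain ⟨-, hmel⟩ := mellin_exp 2 (by norm_num) ζ him
  have hpt : ∀ t : ℝ, LSeries.term H.a (tf t) n * (gam3 (tf t) * ew θ (tf t)) =
      H.a n * cexp (((2 / 3 * L : ℝ) : ℂ) - I * θ / 6) *
        (fun τ : ℝ => Gamma (((2 : ℝ) : ℂ) + (τ : ℂ) * I) * cexp (-(ζ * (((2 : ℝ) : ℂ) + (τ : ℂ) * I)))) (t * (3 / 2)) := by
    intro t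
    simp only
    rw [LSeries.term_of_ne_zero hn]
    unfold gam3 ew
    have h1 : 3 * tf t / 2 - 1 = ((2 : ℝ) : ℂ) + ((t * (3 / 2) : ℝ) : ℂ) * I := by
      simp only [tf]
      push_cast
      ring
    rw [h1, cpow_def_of_ne_zero (by exact_mod_cast hn : (n : ℂ) ≠ 0),
      cpow_def_of_ne_zero (by exact_mod_cast hK.ne' : (K3 : ℂ) ≠ 0), ← ofReal_log hK.le, ← Complex.natCast_log,
      div_eq_mul_inv, ← Complex.exp_neg]
    have h2 : cexp (-((Real.log n : ℂ) * tf t)) * cexp ((Real.log K3 : ℂ) * tf t) * cexp (-(I * θ * (tf t - 1 / 2))) =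
        cexp (((2 / 3 * L : ℝ) : ℂ) - I * θ / 6) *
          cexp (-(ζ * (((2 : ℝ) : ℂ) + ((t * (3 / 2) : ℝ) : ℂ) * I))) := by
      rw [← Complex.exp_add, ← Complex.exp_add, ← Complex.exp_add]
      congr 1
      rw [hζ, hL]
      simp only [tf]
      push_cast
      ring_nf
      try rw [I_sq]
      try ring
    calc H.a n * cexp (-((Real.log n : ℂ) * tf t)) * (cexp ((Real.log K3 : ℂ) * tf t) *
          Gamma (((2 : ℝ) : ℂ) + ((t * (3 / 2) : ℝ) : ℂ) * I) * cexp (-(I * θ * (tf t - 1 / 2))))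
        = H.a n * Gamma (((2 : ℝ) : ℂ) + ((t * (3 / 2) : ℝ) : ℂ) * I) *
          (cexp (-((Real.log n : ℂ) * tf t)) * cexp ((Real.log K3 : ℂ) * tf t) * cexp (-(I * θ * (tf t - 1 / 2)))) := by
          ring
      _ = _ := by rw [h2]; ring
  have hcomp := Measure.integral_comp_mul_right
    (fun τ : ℝ => Gamma (((2 : ℝ) : ℂ) + (τ : ℂ) * I) * cexp (-(ζ * (((2 : ℝ) : ℂ) + (τ : ℂ) * I)))) (3 / 2 : ℝ)
  simp_rw [hpt]
  rw [integral_const_mul]
  refine (congrArg _ hcomp).trans ?_
  have hmel' : ∫ τ : ℝ, Gamma (((2 : ℝ) : ℂ) + (τ : ℂ) * I) * cexp (-(ζ * (((2 : ℝ) : ℂ) + (τ : ℂ) * I))) =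
      ((2 * Real.pi : ℝ) : ℂ) * cexp (-cexp ζ) := by
    have h2pi : (2 * (Real.pi : ℂ)) ≠ 0 := by
      have : (Real.pi : ℂ) ≠ 0 := by exact_mod_cast Real.pi_pos.ne'
      simp [this]
    rw [← hmel, ofReal_mul, ofReal_ofNat, ← mul_assoc, mul_one_div_cancel h2pi, one_mul]
  rw [hmel']
  have hexpζ : cexp ζ = ((((n : ℝ) / K3) ^ (2 / 3 : ℝ) : ℝ) : ℂ) *
      ((Real.sin (2 * d / 3) : ℂ) + Real.cos (2 * d / 3) * I) := by
    rw [hζ, Complex.exp_add]
    congr 1
    · rw [← ofReal_exp]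
      congr 1
      rw [Real.rpow_def_of_pos (by positivity), Real.log_div hnpos.ne' hK.ne', hL]
      congr 1
      ring
    · rw [Complex.exp_mul_I]
      have h1 : ((2 * θ / 3 : ℝ) : ℂ) = ((Real.pi / 2 - 2 * d / 3 : ℝ) : ℂ) := by
        congr 1
        rw [hθ]; ring
      rw [h1, ← ofReal_cos, ← ofReal_sin, Real.cos_pi_div_two_sub, Real.sin_pi_div_two_sub]
  rw [hexpζ]
  have hc1 : cexp (((2 / 3 * L : ℝ) : ℂ) - I * θ / 6) =
      ((K3 ^ (2 / 3 : ℝ) : ℝ) : ℂ) * (((n : ℝ) ^ (-(2 / 3) : ℝ) : ℝ) : ℂ) * cexp (-(I * (θ : ℂ) / 6)) := by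
    rw [sub_eq_add_neg, Complex.exp_add]
    congr 1
    rw [← ofReal_exp, ← ofReal_mul]
    congr 1
    rw [Real.rpow_def_of_pos hK, Real.rpow_def_of_pos hnpos, ← Real.exp_add, hL]
    congr 1
    ring
  rw [hc1]
  unfold hterm
  have habs : |((3 / 2 : ℝ))⁻¹| = 2 / 3 := by norm_num [abs_of_pos]
  rw [habs]
  simp only [Complex.real_smul]
  push_cast
  ring

theorem hardy_upper (H : HeckeF) : ∃ C : ℝ, ∀ d : ℝ, 0 < d → d ≤ 1 →
    ‖∫ t : ℝ, yy H.F t * ((Real.exp ((3 * Real.pi / 4 - d) * t) : ℝ) : ℂ)‖ ≤ C + C * ‖∑' n : ℕ, hterm H d n‖ := by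
  obtain ⟨A00, Cf, hg00⟩ := H.growth (1 / 2) 2
  obtain ⟨A, hA, hg⟩ := growth_nonneg hg00 (by norm_num)
  have hCf : 0 ≤ Cf := by
    have h1 := (norm_nonneg _).trans (hg 1 (by norm_num) (by norm_num))
    simpa using h1
  obtain ⟨C1, A1, hC1, hA1, hup⟩ := gam3_upper
  obtain ⟨C2, A2, hC2, hA2, hup2⟩ := gam3_two_upper
  obtain ⟨Cy, Ay, hCy, hAy, hyb⟩ := yy_bound hA hg
  have hpi3 := Real.pi_gt_three
  -- the constant
  set B : ℝ := Cf * C1 * 2 ^ (A + A1) + Cy * 2 ^ Ay * Real.exp (3 * Real.pi / 4) +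
    Cf * 2 ^ A * (C2 * 2 ^ A2) * Real.exp (3 * Real.pi / 4) with hB
  set Kc : ℝ := K3 ^ (2 / 3 : ℝ) * (4 * Real.pi / 3) with hKc
  have hKc0 : 0 < Kc := by have := K3_pos; positivity
  have hB0 : 0 ≤ B := by positivity
  refine ⟨7 * B + Kc, fun d hd hd1 => ?_⟩
  set θ : ℝ := 3 * Real.pi / 4 - d with hθ
  have hθ0 : 0 ≤ θ := by rw [hθ]; linarith
  have hθ1 : θ ≤ 3 * Real.pi / 4 := by rw [hθ]; linarith
  set g : ℂ → ℂ := fun s => H.F s * (gam3 s * ew θ s) with hgdef
  obtain ⟨Cd, hCd, hCde⟩ := rpow_le_exp_mul (A + A1) (by positivity) (b := d / 2) (by positivity)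
  have hnew : ∀ s : ℂ, ‖ew θ s‖ ≤ Real.exp (θ * |s.im|) := by
    intro s
    rw [norm_ew]
    apply Real.exp_le_exp.mpr
    exact mul_le_mul_of_nonneg_left (le_abs_self _) hθ0
  have hgb : ∀ s : ℂ, 1 / 2 ≤ s.re → s.re ≤ 2 → 1 ≤ |s.im| →
      ‖g s‖ ≤ Cf * C1 * ((1 + |s.im|) ^ (A + A1) * Real.exp (-(d * |s.im|))) := by
    intro s h1 h2 h3
    have h4 : 0 < 1 + |s.im| := by positivity
    rw [hgdef]
    simp only [norm_mul]
    calc ‖H.F s‖ * (‖gam3 s‖ * ‖ew θ s‖)
        ≤ (Cf * (1 + |s.im|) ^ A) * ((C1 * (1 + |s.im|) ^ A1 * Real.exp (-(3 * Real.pi / 4 * |s.im|))) *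
            Real.exp (θ * |s.im|)) := by
          apply mul_le_mul (hg s h1 h2) _ (by positivity) (by positivity)
          exact mul_le_mul (hup s h1 h2 h3) (hnew s) (norm_nonneg _) (by positivity)
      _ = Cf * C1 * ((1 + |s.im|) ^ (A + A1) * (Real.exp (-(3 * Real.pi / 4 * |s.im|)) * Real.exp (θ * |s.im|))) := by
          rw [Real.rpow_add h4]; ring
      _ = _ := by
          rw [← Real.exp_add, hθ]
          ring_nf
  have hgd : ∀ s : ℂ, 1 / 2 ≤ s.re → s.re ≤ 2 → s.im ≠ 0 → DifferentiableAt ℂ g s := by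
    intro s h1 _ h3
    apply DifferentiableAt.mul (H.diff s)
    apply DifferentiableAt.mul _ (differentiable_ew θ s)
    apply gam3_differentiableAt h1
    intro h
    apply h3
    rw [h]
    simp
  have hline1 : ∀ t : ℝ, g (((1 / 2 : ℝ) : ℂ) + (t : ℂ) * I) = yy H.F t * ((Real.exp (θ * t) : ℝ) : ℂ) := by
    intro t
    rw [hgdef]
    simp only
    rw [← ew_half]
    unfold yy
    ring
  have hi1 : Integrable fun t : ℝ => g (((1 / 2 : ℝ) : ℂ) + (t : ℂ) * I) := by
    simp_rw [hline1]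
    refine Integrable.mono' ((integrable_poly_exp Ay hAy hd).const_mul Cy) ?_ ?_
    · exact ((yy_continuous H.diff).mul (Complex.continuous_ofReal.comp (by fun_prop))).aestronglyMeasurable
    · refine Filter.Eventually.of_forall fun t => ?_
      rw [norm_mul, Complex.norm_real, Real.norm_eq_abs, abs_of_pos (Real.exp_pos _)]
      calc ‖yy H.F t‖ * Real.exp (θ * t) ≤ Cy * ((1 + |t|) ^ Ay * Real.exp (-(3 * Real.pi / 4 * |t|))) * Real.exp (θ * |t|) := by
            apply mul_le_mul (hyb t) _ (Real.exp_pos _).le (by positivity)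
            apply Real.exp_le_exp.mpr
            exact mul_le_mul_of_nonneg_left (le_abs_self t) hθ0
        _ = Cy * ((1 + |t|) ^ Ay * Real.exp (-(d * |t|))) := by
            rw [mul_assoc, mul_assoc, ← Real.exp_add, hθ]
            ring_nf
  have hFcont : Continuous H.F := H.diff.continuous
  have hFb : ∀ t : ℝ, ‖H.F (tf t)‖ ≤ Cf * (1 + |t|) ^ A := by
    intro t
    have := hg (tf t) (by simp; norm_num) (by simp)
    have him : (tf t).im = t := by simp
    rwa [him] at this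
  have hi2 : Integrable fun t : ℝ => g (((2 : ℝ) : ℂ) + (t : ℂ) * I) := by
    refine Integrable.mono' ((integrable_poly_exp (A + A2) (by positivity) hd).const_mul (Cf * C2)) ?_ ?_
    · rw [hgdef]
      exact ((hFcont.comp (by fun_prop)).mul (gam3_two_continuous.mul
        ((differentiable_ew _).continuous.comp (by fun_prop)))).aestronglyMeasurable
    · refine Filter.Eventually.of_forall fun t => ?_
      have h4 : 0 < 1 + |t| := by positivity
      rw [hgdef]
      simp only [norm_mul]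
      have him : (tf t).im = t := by simp
      have hn := hnew (tf t)
      rw [him] at hn
      calc ‖H.F (tf t)‖ * (‖gam3 (tf t)‖ * ‖ew θ (tf t)‖)
          ≤ (Cf * (1 + |t|) ^ A) * ((C2 * (1 + |t|) ^ A2 * Real.exp (-(3 * Real.pi / 4 * |t|))) * Real.exp (θ * |t|)) := by
            apply mul_le_mul (hFb t) _ (by positivity) (by positivity)
            exact mul_le_mul (hup2 t) hn (norm_nonneg _) (by positivity)
        _ = Cf * C2 * ((1 + |t|) ^ (A + A2) * (Real.exp (-(3 * Real.pi / 4 * |t|)) * Real.exp (θ * |t|))) := by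
            rw [Real.rpow_add h4]; ring
        _ = _ := by
            rw [← Real.exp_add, hθ]
            ring_nf
  have hexp1 : ∀ t : ℝ, |t| ≤ 1 → Real.exp (θ * t) ≤ Real.exp (3 * Real.pi / 4) := by
    intro t ht
    apply Real.exp_le_exp.mpr
    have h1 : t ≤ 1 := (le_abs_self t).trans ht
    calc θ * t ≤ θ * 1 := mul_le_mul_of_nonneg_left h1 hθ0
      _ ≤ _ := by linarith
  have h2pos : (0 : ℝ) < 2 := by norm_num
  have hshift := contour_shift (g := g) (σ₁ := 1 / 2) (σ₂ := 2) (C := Cf * C1 * (Cd * Real.exp (d / 2))) (κ := d / 2) (B := B)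
    (by norm_num) (by positivity) hgd hi1 hi2
    (by
      intro s h1 h2 h3
      refine (hgb s h1 h2 h3).trans ?_
      rw [mul_assoc (Cf * C1)]
      apply mul_le_mul_of_nonneg_left _ (by positivity)
      have h4 := hCde (1 + |s.im|) (by linarith [abs_nonneg s.im])
      calc (1 + |s.im|) ^ (A + A1) * Real.exp (-(d * |s.im|))
          ≤ (Cd * Real.exp (d / 2 * (1 + |s.im|))) * Real.exp (-(d * |s.im|)) :=
            mul_le_mul_of_nonneg_right h4 (Real.exp_pos _).le
        _ = _ := by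
            rw [mul_assoc, mul_assoc, ← Real.exp_add, ← Real.exp_add]
            ring_nf)
    (by
      intro s h1 h2 h3
      refine (hgb s h1 h2 (by rw [h3])).trans ?_
      rw [h3]
      have h4 : Real.exp (-(d * 1)) ≤ 1 := Real.exp_le_one_iff.mpr (by linarith)
      have h5 : (1 + 1 : ℝ) ^ (A + A1) * Real.exp (-(d * 1)) ≤ 2 ^ (A + A1) := by
        rw [show (1 + 1 : ℝ) = 2 by norm_num]
        calc (2 : ℝ) ^ (A + A1) * Real.exp (-(d * 1)) ≤ 2 ^ (A + A1) * 1 := mul_le_mul_of_nonneg_left h4 (by positivity)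
          _ = _ := mul_one _
      calc Cf * C1 * ((1 + 1 : ℝ) ^ (A + A1) * Real.exp (-(d * 1))) ≤ Cf * C1 * 2 ^ (A + A1) :=
            mul_le_mul_of_nonneg_left h5 (by positivity)
        _ ≤ B := by
            rw [hB]
            have e1 : 0 ≤ Cy * 2 ^ Ay * Real.exp (3 * Real.pi / 4) := by positivity
            have e2 : 0 ≤ Cf * 2 ^ A * (C2 * 2 ^ A2) * Real.exp (3 * Real.pi / 4) := by positivity
            linarith)
    (by
      intro t ht
      rw [hline1, norm_mul, Complex.norm_real, Real.norm_eq_abs, abs_of_pos (Real.exp_pos _)]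
      have h1 : ‖yy H.F t‖ ≤ Cy * 2 ^ Ay := by
        refine (hyb t).trans ?_
        apply mul_le_mul_of_nonneg_left _ hCy.le
        calc (1 + |t|) ^ Ay * Real.exp (-(3 * Real.pi / 4 * |t|)) ≤ 2 ^ Ay * 1 := by
              apply mul_le_mul _ _ (Real.exp_pos _).le (by positivity)
              · apply Real.rpow_le_rpow (by positivity) (by linarith) hAy
              · apply Real.exp_le_one_iff.mpr
                have := mul_nonneg (show 0 ≤ 3 * Real.pi / 4 by positivity) (abs_nonneg t)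
                linarith
          _ = _ := mul_one _
      calc ‖yy H.F t‖ * Real.exp (θ * t) ≤ (Cy * 2 ^ Ay) * Real.exp (3 * Real.pi / 4) :=
            mul_le_mul h1 (hexp1 t ht) (Real.exp_pos _).le (by positivity)
        _ ≤ B := by
            rw [hB]
            have e1 : 0 ≤ Cf * C1 * 2 ^ (A + A1) := by positivity
            have e2 : 0 ≤ Cf * 2 ^ A * (C2 * 2 ^ A2) * Real.exp (3 * Real.pi / 4) := by positivity
            linarith)
    (by
      intro t ht
      rw [hgdef]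
      simp only [norm_mul, norm_ew]
      have him : (((2 : ℝ) : ℂ) + (t : ℂ) * I).im = t := by simp
      rw [him]
      have h1 : ‖H.F (tf t)‖ ≤ Cf * 2 ^ A := by
        refine (hFb t).trans ?_
        apply mul_le_mul_of_nonneg_left _ hCf
        exact Real.rpow_le_rpow (by positivity) (by linarith) hA
      have h2 : ‖gam3 (tf t)‖ ≤ C2 * 2 ^ A2 := by
        refine (hup2 t).trans ?_
        rw [mul_assoc]
        apply mul_le_mul_of_nonneg_left _ hC2.le
        calc (1 + |t|) ^ A2 * Real.exp (-(3 * Real.pi / 4 * |t|)) ≤ 2 ^ A2 * 1 := by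
              apply mul_le_mul _ _ (Real.exp_pos _).le (by positivity)
              · apply Real.rpow_le_rpow (by positivity) (by linarith) hA2
              · apply Real.exp_le_one_iff.mpr
                have := mul_nonneg (show 0 ≤ 3 * Real.pi / 4 by positivity) (abs_nonneg t)
                linarith
          _ = _ := mul_one _
      calc ‖H.F (tf t)‖ * (‖gam3 (tf t)‖ * Real.exp (θ * t)) ≤
            (Cf * 2 ^ A) * ((C2 * 2 ^ A2) * Real.exp (3 * Real.pi / 4)) := by
            apply mul_le_mul h1 _ (by positivity) (by positivity)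
            exact mul_le_mul h2 (hexp1 t ht) (Real.exp_pos _).le (by positivity)
        _ ≤ B := by
            rw [hB]
            have e1 : 0 ≤ Cf * C1 * 2 ^ (A + A1) := by positivity
            have e2 : 0 ≤ Cy * 2 ^ Ay * Real.exp (3 * Real.pi / 4) := by positivity
            have e3 : Cf * 2 ^ A * (C2 * 2 ^ A2) * Real.exp (3 * Real.pi / 4) =
              (Cf * 2 ^ A) * ((C2 * 2 ^ A2) * Real.exp (3 * Real.pi / 4)) := by ring
            linarith)
  -- the line Re s = 2
  have hsum2 : Summable (fun n => ‖LSeries.term H.a 2 n‖) := (H.selberg.summable 2 (by norm_num)).norm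
  have hMi := integrable_two hd hd1
  have hnterm : ∀ (n : ℕ) (t : ℝ), ‖LSeries.term H.a (tf t) n‖ = ‖LSeries.term H.a 2 n‖ := by
    intro n t
    rw [LSeries.norm_term_eq, LSeries.norm_term_eq]
    have e1 : (tf t).re = (2 : ℂ).re := by simp
    rw [e1]
  have hterm_cont : ∀ n : ℕ, Continuous fun t : ℝ => LSeries.term H.a (tf t) n := by
    intro n
    rcases eq_or_ne n 0 with rfl | hn
    · simp only [LSeries.term_zero]
      exact continuous_const
    · simp only [LSeries.term_of_ne_zero hn]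
      apply Continuous.div continuous_const
      · apply Continuous.const_cpow (by fun_prop)
        left
        exact_mod_cast hn
      · intro t
        rw [cpow_def_of_ne_zero (by exact_mod_cast hn)]
        exact exp_ne_zero _
  have hFi : ∀ n : ℕ, Integrable fun t : ℝ => LSeries.term H.a (tf t) n * (gam3 (tf t) * ew θ (tf t)) := by
    intro n
    refine Integrable.mono' (hMi.norm.const_mul ‖LSeries.term H.a 2 n‖) ?_ ?_
    · exact ((hterm_cont n).mul (gam3_two_continuous.mul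
        ((differentiable_ew _).continuous.comp (by fun_prop)))).aestronglyMeasurable
    · refine Filter.Eventually.of_forall fun t => ?_
      rw [norm_mul, hnterm]
  have hHas := hasSum_integral_of_summable_integral_norm
    (F := fun (n : ℕ) (t : ℝ) => LSeries.term H.a (tf t) n * (gam3 (tf t) * ew θ (tf t))) hFi
    (by
      have : ∀ n : ℕ, (∫ t : ℝ, ‖LSeries.term H.a (tf t) n * (gam3 (tf t) * ew θ (tf t))‖) =
          ‖LSeries.term H.a 2 n‖ * ∫ t : ℝ, ‖gam3 (tf t) * ew θ (tf t)‖ := by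
        intro n
        rw [← integral_const_mul]
        congr 1
        ext t
        rw [norm_mul, hnterm]
      simp_rw [this]
      exact hsum2.mul_right _)
  have hline2 : ∫ t : ℝ, g (((2 : ℝ) : ℂ) + (t : ℂ) * I) =
      ((Kc : ℝ) : ℂ) * cexp (-(I * (θ : ℂ) / 6)) * ∑' n : ℕ, hterm H d n := by
    rw [← tsum_mul_left]
    have h1 : ∀ n : ℕ, (∫ t : ℝ, LSeries.term H.a (tf t) n * (gam3 (tf t) * ew θ (tf t))) =
        ((Kc : ℝ) : ℂ) * cexp (-(I * (θ : ℂ) / 6)) * hterm H d n := fun n => term_integral H hd hd1 n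
    simp_rw [← h1]
    rw [hHas.tsum_eq]
    congr 1
    ext t
    rw [tsum_mul_right, hgdef]
    simp only
    congr 1
    exact H.selberg.eq _ (by simp)
  have hnormexp : ‖cexp (-(I * (θ : ℂ) / 6))‖ = 1 := by
    have : -(I * (θ : ℂ) / 6) = ((-(θ / 6) : ℝ) : ℂ) * I := by push_cast; ring
    rw [this, Complex.norm_exp_ofReal_mul_I]
  have hfin : ‖∫ t : ℝ, g (((1 / 2 : ℝ) : ℂ) + (t : ℂ) * I)‖ ≤ 7 * B + Kc * ‖∑' n : ℕ, hterm H d n‖ := by
    have h1 : ‖∫ t : ℝ, g (((2 : ℝ) : ℂ) + (t : ℂ) * I)‖ = Kc * ‖∑' n : ℕ, hterm H d n‖ := by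
      rw [hline2, norm_mul, norm_mul, hnormexp, mul_one, Complex.norm_real, Real.norm_eq_abs, abs_of_pos hKc0]
    have h2 := norm_sub_norm_le (∫ t : ℝ, g (((1 / 2 : ℝ) : ℂ) + (t : ℂ) * I)) (∫ t : ℝ, g (((2 : ℝ) : ℂ) + (t : ℂ) * I))
    rw [norm_sub_rev] at h2
    have h3 : (4 + 2 * ((2 : ℝ) - 1 / 2)) * B = 7 * B := by ring
    rw [h3] at hshift
    linarith
  simp_rw [hline1] at hfin
  refine hfin.trans ?_
  have e1 : 0 ≤ ‖∑' n : ℕ, hterm H d n‖ := norm_nonneg _
  nlinarith [mul_nonneg (mul_nonneg (show (0:ℝ) ≤ 7 by norm_num) hB0) e1]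

end Pool.Agent.Helper83.BDF
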