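import Pool.Agent.Helper83.BDF.Crit

/-!
MP_bd232a_nt, part F2: lower bound for the Hardy integral if there are finitely many critical zeros.
-/

open Complex MeasureTheory Set Filter Topology

namespace Pool.Agent.Helper83.BDF

open Pool.Agent.Helper19.BD

/-- the point `1/2 + i t` -/
noncomputable abbrev hf (t : ℝ) : ℂ := ((1 / 2 : ℝ) : ℂ) + t * I

lemma rpow_le_exp_mul (A : ℝ) (hA : 0 ≤ A) {b : ℝ} (hb : 0 < b) : ∃ C : ℝ, 0 ≤ C ∧ ∀ t : ℝ, 1 ≤ t →
    t ^ A ≤ C * Real.exp (b * t) := by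
  have hlim : Tendsto (fun x : ℝ => x ^ A * Real.exp (-b * x)) atTop (𝓝 0) :=
    tendsto_rpow_mul_exp_neg_mul_atTop_nhds_zero A b hb
  obtain ⟨x0, hx0⟩ := (hlim.eventually (gt_mem_nhds (show (0 : ℝ) < 1 by norm_num))).exists_forall_of_atTop
  refine ⟨max 1 ((max x0 1) ^ A), by positivity, fun t h1 => ?_⟩
  by_cases h : x0 ≤ t
  · have := hx0 _ h
    have h2 : t ^ A ≤ 1 * Real.exp (b * t) := by
      have h3 : t ^ A * Real.exp (-b * t) * Real.exp (b * t) ≤ 1 * Real.exp (b * t) :=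
        mul_le_mul_of_nonneg_right this.le (Real.exp_pos _).le
      rwa [mul_assoc, ← Real.exp_add, show -b * t + b * t = 0 by ring, Real.exp_zero, mul_one] at h3
    exact h2.trans (mul_le_mul_of_nonneg_right (le_max_left _ _) (Real.exp_pos _).le)
  · push Not at h
    have h2 : t ^ A ≤ (max x0 1) ^ A :=
      Real.rpow_le_rpow (by linarith) (h.le.trans (le_max_left _ _)) hA
    have h3 : (1 : ℝ) ≤ Real.exp (b * t) := Real.one_le_exp (by nlinarith)
    calc t ^ A ≤ (max x0 1) ^ A := h2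
      _ ≤ max 1 ((max x0 1) ^ A) := le_max_right _ _
      _ = max 1 ((max x0 1) ^ A) * 1 := (mul_one _).symm
      _ ≤ _ := mul_le_mul_of_nonneg_left h3 (by positivity)

lemma integrable_exp_neg_abs {b : ℝ} (hb : 0 < b) : Integrable (fun t : ℝ => Real.exp (-(b * |t|))) := by
  rw [← integrableOn_univ, ← Iic_union_Ioi (a := (0 : ℝ))]
  apply IntegrableOn.union
  · refine (integrableOn_exp_mul_Iic hb 0).congr_fun (fun t ht => ?_) measurableSet_Iic
    have ht' : t ≤ 0 := ht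
    simp only
    rw [abs_of_nonpos ht']
    ring_nf
  · refine (integrableOn_exp_mul_Ioi (a := -b) (by linarith) 0).congr_fun (fun t ht => ?_) measurableSet_Ioi
    have ht' : 0 < t := ht
    simp only
    rw [abs_of_pos ht']
    ring_nf

lemma integrable_poly_exp (A : ℝ) (hA : 0 ≤ A) {b : ℝ} (hb : 0 < b) :
    Integrable (fun t : ℝ => (1 + |t|) ^ A * Real.exp (-(b * |t|))) := by
  obtain ⟨C, hC, h⟩ := rpow_le_exp_mul A hA (b := b / 2) (by positivity)
  refine Integrable.mono' ((integrable_exp_neg_abs (b := b / 2) (by positivity)).const_mul (C * Real.exp (b / 2))) ?_ ?_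
  · apply Continuous.aestronglyMeasurable
    apply Continuous.mul
    · exact Continuous.rpow_const (by fun_prop) fun x => Or.inr hA
    · fun_prop
  · refine Filter.Eventually.of_forall fun t => ?_
    rw [Real.norm_eq_abs, abs_of_nonneg (by positivity)]
    have h1 := h (1 + |t|) (by linarith [abs_nonneg t])
    calc (1 + |t|) ^ A * Real.exp (-(b * |t|)) ≤ C * Real.exp (b / 2 * (1 + |t|)) * Real.exp (-(b * |t|)) :=
          mul_le_mul_of_nonneg_right h1 (Real.exp_pos _).le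
      _ = C * Real.exp (b / 2) * Real.exp (-(b / 2 * |t|)) := by
          rw [mul_assoc, mul_assoc, ← Real.exp_add, ← Real.exp_add]
          ring_nf

lemma Gammaℝ_conj' (z : ℂ) : Gammaℝ ((starRingEnd ℂ) z) = (starRingEnd ℂ) (Gammaℝ z) := by
  rw [Gammaℝ_def, Gammaℝ_def, map_mul]
  congr 1
  · have h1 : -(starRingEnd ℂ) z / 2 = (starRingEnd ℂ) (-z / 2) := by
      rw [map_div₀, map_neg, map_ofNat]
    rw [h1, cpow_conj _ _ (by rw [Complex.arg_ofReal_of_nonneg Real.pi_pos.le]; exact Real.pi_pos.ne)]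
    simp
  · have h1 : (starRingEnd ℂ) z / 2 = (starRingEnd ℂ) (z / 2) := by
      rw [map_div₀, map_ofNat]
    rw [h1, Gamma_conj]

/-- functional equation on the critical line -/
lemma xi_real (H : HeckeF) (t : ℝ) : gam H.nu (hf t) * H.F (hf t) = H.om * (starRingEnd ℂ) (gam H.nu (hf t) * H.F (hf t)) := by
  have h := H.fe (hf t) (by simp) (by simp; norm_num)
  have hc : (1 : ℂ) - (starRingEnd ℂ) (hf t) = hf t := by
    simp only [hf, map_add, map_mul, conj_ofReal, conj_I]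
    push_cast
    ring
  have hc2 : (1 : ℂ) - hf t = (starRingEnd ℂ) (hf t) := by
    simp only [hf, map_add, map_mul, conj_ofReal, conj_I]
    push_cast
    ring
  rw [hc, hc2] at h
  have hconj : (starRingEnd ℂ) (gam H.nu (hf t) * H.F (hf t)) =
      (7 : ℂ) ^ ((starRingEnd ℂ) (hf t)) * (∏ j, Gammaℝ ((starRingEnd ℂ) (hf t) + I * H.nu j)) *
        (starRingEnd ℂ) (H.F (hf t)) := by
    unfold gam
    rw [map_mul, map_mul]
    congr 1
    congr 1
    · have h7 : (arg 7) ≠ Real.pi := by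
        rw [show (7 : ℂ) = ((7 : ℝ) : ℂ) by norm_num, Complex.arg_ofReal_of_nonneg (by norm_num)]
        exact Real.pi_pos.ne
      rw [cpow_conj _ _ h7, map_ofNat]
    · rw [map_prod]
      refine Finset.prod_congr rfl fun j _ => ?_
      rw [← Gammaℝ_conj']
      congr 1
      simp only [map_sub, map_mul, conj_ofReal, conj_I]
      ring
  rw [hconj]
  exact h

lemma gam_ne_zero (nu : Fin 3 → ℝ) (t : ℝ) : gam nu (hf t) ≠ 0 := by
  unfold gam
  apply mul_ne_zero
  · rw [cpow_def_of_ne_zero (by norm_num)]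
    exact exp_ne_zero _
  · rw [Finset.prod_ne_zero_iff]
    intro j _
    apply Gammaℝ_ne_zero_of_re_pos
    simp

lemma gam_continuous (nu : Fin 3 → ℝ) : Continuous fun t : ℝ => gam nu (hf t) := by
  unfold gam
  apply Continuous.mul
  · apply Continuous.const_cpow (by fun_prop)
    left
    norm_num
  · apply continuous_finsetProd
    intro j _
    have h1 : Continuous fun t : ℝ => (Gammaℝ (hf t - I * nu j))⁻¹ :=
      differentiable_Gammaℝ_inv.continuous.comp (by fun_prop)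
    have h2 : Continuous fun t : ℝ => ((Gammaℝ (hf t - I * nu j))⁻¹)⁻¹ := by
      apply h1.inv₀
      intro t
      apply inv_ne_zero
      apply Gammaℝ_ne_zero_of_re_pos
      simp
    simpa using h2

/-- a square root of `om` -/
lemma exists_om0 {om : ℂ} (h : ‖om‖ = 1) : ∃ om0 : ℂ, ‖om0‖ = 1 ∧ om0 ^ 2 = om := by
  refine ⟨cexp (((arg om / 2 : ℝ) : ℂ) * I), by rw [Complex.norm_exp_ofReal_mul_I], ?_⟩
  rw [← Complex.exp_nat_mul]
  have h1 := Complex.norm_mul_exp_arg_mul_I om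
  rw [h] at h1
  refine Eq.trans ?_ h1
  rw [ofReal_one, one_mul]
  congr 1
  push_cast
  ring

/-- sign constancy -/
lemma sign_const {x : ℝ → ℝ} (hx : Continuous x) {T : ℝ} (h : ∀ t, T ≤ t → x t ≠ 0) :
    ∃ e : ℝ, (e = 1 ∨ e = -1) ∧ ∀ t, T ≤ t → e * x t = |x t| := by
  rcases lt_or_gt_of_ne (h T le_rfl) with hT | hT
  · refine ⟨-1, Or.inr rfl, fun t ht => ?_⟩
    have hlt : x t < 0 := by
      by_contra hcon
      push Not at hcon
      have := intermediate_value_Icc ht hx.continuousOn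
      obtain ⟨u, hu, hu0⟩ := this ⟨hT.le, hcon⟩
      exact h u hu.1 hu0
    rw [abs_of_neg hlt]; ring
  · refine ⟨1, Or.inl rfl, fun t ht => ?_⟩
    have hgt : 0 < x t := by
      by_contra hcon
      push Not at hcon
      have := intermediate_value_Icc' ht hx.continuousOn
      obtain ⟨u, hu, hu0⟩ := this ⟨hcon, hT.le⟩
      exact h u hu.1 hu0
    rw [abs_of_pos hgt]; ring

/-- finitely many critical zeros: none for `t ≥ T` -/
lemma zero_free {F : ℂ → ℂ} (hfin : {s : ℂ | s.re = 1 / 2 ∧ F s = 0}.Finite) : ∃ T : ℝ, ∀ t : ℝ, T ≤ t → F (hf t) ≠ 0 := by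
  obtain ⟨M, hM⟩ := (hfin.image Complex.im).bddAbove
  refine ⟨M + 1, fun t ht h0 => ?_⟩
  have h1 : t ∈ Complex.im '' {s : ℂ | s.re = 1 / 2 ∧ F s = 0} := by
    refine ⟨hf t, ⟨by simp, h0⟩, by simp⟩
  have := hM h1
  linarith

/-- integrand of the Hardy integral -/
noncomputable def yy (F : ℂ → ℂ) (t : ℝ) : ℂ := F (hf t) * gam3 (hf t)

lemma yy_continuous {F : ℂ → ℂ} (hF : Differentiable ℂ F) : Continuous (yy F) := by
  unfold yy
  exact (hF.continuous.comp (by fun_prop)).mul gam3_half_continuous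

lemma yy_bound {F : ℂ → ℂ} {A C : ℝ} (hA : 0 ≤ A)
    (hg : ∀ s : ℂ, 1 / 2 ≤ s.re → s.re ≤ 2 → ‖F s‖ ≤ C * (1 + |s.im|) ^ A) :
    ∃ C' A' : ℝ, 0 < C' ∧ 0 ≤ A' ∧ ∀ t : ℝ, ‖yy F t‖ ≤ C' * ((1 + |t|) ^ A' * Real.exp (-(3 * Real.pi / 4 * |t|))) := by
  have hC : 0 ≤ C := by
    have h1 := (norm_nonneg _).trans (hg 1 (by norm_num) (by norm_num))
    simpa using h1
  obtain ⟨C1, A1, hC1, hA1, h1⟩ := gam3_half_upper
  refine ⟨(C + 1) * C1, A + A1, by positivity, by positivity, fun t => ?_⟩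
  unfold yy
  rw [norm_mul]
  have h2 : ‖F (hf t)‖ ≤ C * (1 + |t|) ^ A := by
    have := hg (((1 / 2 : ℝ) : ℂ) + t * I) (by simp) (by simp; norm_num)
    have him : (((1 / 2 : ℝ) : ℂ) + t * I).im = t := by simp
    rwa [him] at this
  have h3 : 0 < 1 + |t| := by positivity
  calc ‖F (hf t)‖ * ‖gam3 (hf t)‖
      ≤ (C * (1 + |t|) ^ A) * (C1 * (1 + |t|) ^ A1 * Real.exp (-(3 * Real.pi / 4 * |t|))) :=
        mul_le_mul h2 (h1 t) (norm_nonneg _) (by positivity)
    _ ≤ ((C + 1) * (1 + |t|) ^ A) * (C1 * (1 + |t|) ^ A1 * Real.exp (-(3 * Real.pi / 4 * |t|))) := by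
        apply mul_le_mul_of_nonneg_right _ (by positivity)
        apply mul_le_mul_of_nonneg_right (by linarith) (by positivity)
    _ = _ := by
        rw [Real.rpow_add h3]; ring

lemma growth_nonneg {F : ℂ → ℂ} {σ₁ σ₂ A C : ℝ} (h : ∀ s : ℂ, σ₁ ≤ s.re → s.re ≤ σ₂ → ‖F s‖ ≤ C * (1 + |s.im|) ^ A)
    (h12 : σ₁ ≤ σ₂) : ∃ A' : ℝ, 0 ≤ A' ∧ ∀ s : ℂ, σ₁ ≤ s.re → s.re ≤ σ₂ → ‖F s‖ ≤ C * (1 + |s.im|) ^ A' := by
  have hC : 0 ≤ C := by
    have h1 := (norm_nonneg _).trans (h (σ₁ : ℂ) (by simp) (by simpa using h12))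
    simpa using h1
  refine ⟨max A 0, le_max_right _ _, fun s h1 h2 => (h s h1 h2).trans ?_⟩
  apply mul_le_mul_of_nonneg_left _ hC
  apply Real.rpow_le_rpow_of_exponent_le _ (le_max_left _ _)
  linarith [abs_nonneg s.im]

theorem hardy_lower (H : HeckeF) (hfin : {s : ℂ | s.re = 1 / 2 ∧ H.F s = 0}.Finite) :
    ∃ c C0 T1 : ℝ, 0 < c ∧ 1 ≤ T1 ∧ ∀ d : ℝ, 0 < d → d ≤ 1 →
      c * (∫ t in Ioi T1, ‖H.F (hf t)‖ * t ^ (-(3 / 4) : ℝ) * Real.exp (-(d * t))) ≤
        C0 + ‖∫ t : ℝ, yy H.F t * ((Real.exp ((3 * Real.pi / 4 - d) * t) : ℝ) : ℂ)‖ := by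
  obtain ⟨A00, C, hg00⟩ := H.growth (1 / 2) 2
  obtain ⟨A, hA, hg⟩ := growth_nonneg hg00 (by norm_num)
  obtain ⟨om0, hom0, hom02⟩ := exists_om0 H.hom
  obtain ⟨TF, hTF⟩ := zero_free hfin
  obtain ⟨CR, TR, hCR, hTR, hratio⟩ := gam_ratio H.nu H.nu_sum
  obtain ⟨cL, TL, hcL, hTL, hlow⟩ := gam3_lower
  obtain ⟨Cy, Ay, hCy, hAy, hyb⟩ := yy_bound hA hg
  set Cg : ℝ := 2 * Real.pi * 3 ^ (3 / 2 : ℝ) with hCg
  have hCgpos : 0 < Cg := by positivity
  -- the real function
  set x : ℝ → ℝ := fun t => ((starRingEnd ℂ) om0 * (gam H.nu (hf t) * H.F (hf t))).re with hx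
  have hunit : om0 * (starRingEnd ℂ) om0 = 1 := by
    rw [Complex.mul_conj, Complex.normSq_eq_norm_sq, hom0]; norm_num
  have hxeq : ∀ t, (starRingEnd ℂ) om0 * (gam H.nu (hf t) * H.F (hf t)) = (x t : ℂ) := by
    intro t
    rw [hx]
    apply Eq.symm
    rw [← Complex.conj_eq_iff_re, map_mul, Complex.conj_conj]
    have h1 := xi_real H t
    set G := gam H.nu (hf t) * H.F (hf t) with hG
    calc om0 * (starRingEnd ℂ) G = (om0 * (starRingEnd ℂ) om0) * (om0 * (starRingEnd ℂ) G) := by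
          rw [hunit, one_mul]
      _ = (starRingEnd ℂ) om0 * (om0 ^ 2 * (starRingEnd ℂ) G) := by ring
      _ = (starRingEnd ℂ) om0 * G := by rw [hom02, ← h1]
  have hgF : ∀ t, gam H.nu (hf t) * H.F (hf t) = om0 * (x t : ℂ) := by
    intro t
    rw [← hxeq t, ← mul_assoc, hunit, one_mul]
  have hxcont : Continuous x := by
    rw [hx]
    apply Complex.continuous_re.comp
    apply Continuous.mul continuous_const
    exact (gam_continuous H.nu).mul (H.diff.continuous.comp (by fun_prop))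
  have hxne : ∀ t, TF ≤ t → x t ≠ 0 := by
    intro t ht h0
    have h1 := hgF t
    rw [h0, ofReal_zero, mul_zero] at h1
    rcases mul_eq_zero.mp h1 with h2 | h2
    · exact gam_ne_zero _ _ h2
    · exact hTF t ht h2
  obtain ⟨e, he, hex⟩ := sign_const hxcont hxne
  set T1 : ℝ := max (max TF TR) (max (max TL CR) 1) with hT1
  have hT1F : TF ≤ T1 := (le_max_left _ _).trans (le_max_left _ _)
  have hT1R : TR ≤ T1 := (le_max_right _ _).trans (le_max_left _ _)
  have hT1L : TL ≤ T1 := ((le_max_left _ _).trans (le_max_left _ _)).trans (le_max_right _ _)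
  have hT1C : CR ≤ T1 := ((le_max_right _ _).trans (le_max_left _ _)).trans (le_max_right _ _)
  have hT11 : 1 ≤ T1 := (le_max_right _ _).trans (le_max_right _ _)
  -- pointwise
  have hpt : ∀ t, T1 ≤ t → 1 / 2 * ‖yy H.F t‖ ≤ ((e : ℂ) * (starRingEnd ℂ) om0 * yy H.F t).re := by
    intro t ht
    obtain ⟨R, hR, hRe⟩ := hratio t (hT1R.trans ht)
    have hR1 : ‖R‖ ≤ 1 := by
      refine hR.trans ?_
      rw [div_le_one (by linarith)]
      linarith
    have h1 : (starRingEnd ℂ) om0 * yy H.F t = (x t : ℂ) * ((1 / Cg : ℝ) : ℂ) * cexp (-R) := by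
      have h2 := hgF t
      rw [hRe] at h2
      have h3 : (Cg : ℂ) ≠ 0 := by exact_mod_cast hCgpos.ne'
      have h4 : cexp R * cexp (-R) = 1 := by rw [← Complex.exp_add]; simp
      unfold yy
      push_cast
      rw [mul_one_div, div_mul_eq_mul_div, eq_div_iff h3]
      calc (starRingEnd ℂ) om0 * (H.F (hf t) * gam3 (hf t)) * (Cg : ℂ)
          = (starRingEnd ℂ) om0 * (gam3 (hf t) * (Cg : ℂ) * cexp R * H.F (hf t)) * cexp (-R) := by
            linear_combination (-((starRingEnd ℂ) om0 * (H.F (hf t) * gam3 (hf t)) * (Cg : ℂ))) * h4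
        _ = (starRingEnd ℂ) om0 * (om0 * (x t : ℂ)) * cexp (-R) := by rw [h2]
        _ = (x t : ℂ) * cexp (-R) := by linear_combination ((x t : ℂ) * cexp (-R)) * hunit
    have h5 : (e : ℂ) * (starRingEnd ℂ) om0 * yy H.F t = ((|x t| * (1 / Cg) : ℝ) : ℂ) * cexp (-R) := by
      rw [mul_assoc, h1, ← hex t (hT1F.trans ht)]
      push_cast
      ring
    have hnorm_e : ‖(e : ℂ)‖ = 1 := by
      rcases he with h | h <;> simp [h]
    have h6 : ‖yy H.F t‖ = |x t| * (1 / Cg) * Real.exp (-R.re) := by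
      have h7 : ‖(e : ℂ) * (starRingEnd ℂ) om0 * yy H.F t‖ = ‖yy H.F t‖ := by
        rw [norm_mul, norm_mul, hnorm_e, RCLike.norm_conj, hom0, one_mul, one_mul]
      rw [← h7, h5, norm_mul, Complex.norm_real, Real.norm_eq_abs, abs_of_nonneg (by positivity), Complex.norm_exp,
        neg_re]
    rw [h5, re_ofReal_mul, Complex.exp_re, neg_re, neg_im, Real.cos_neg, h6]
    have h8 : 1 / 2 ≤ Real.cos R.im := by
      have h9 := Real.one_sub_sq_div_two_le_cos (x := R.im)
      have h10 : |R.im| ≤ 1 := (abs_im_le_norm R).trans hR1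
      have h11 : R.im ^ 2 ≤ 1 := by
        rw [← sq_abs]
        exact pow_le_one₀ (abs_nonneg _) h10
      linarith
    have h12 : 0 ≤ |x t| * (1 / Cg) * Real.exp (-R.re) := by positivity
    nlinarith
  -- constants
  set W : ℝ := ∫ t : ℝ, Cy * ((1 + |t|) ^ Ay * Real.exp (-(3 * Real.pi / 4 * |t|))) * Real.exp (3 * Real.pi / 4 * T1) with hW
  refine ⟨1 / 2 * cL, W, T1, by positivity, hT11, fun d hd hd1 => ?_⟩
  set E : ℝ → ℝ := fun t => Real.exp ((3 * Real.pi / 4 - d) * t) with hE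
  have hpi3 := Real.pi_gt_three
  have hdpi : d < 3 * Real.pi / 4 := by linarith
  have hycont := yy_continuous H.diff
  have hEcont : Continuous E := by rw [hE]; fun_prop
  have hint : Integrable (fun t : ℝ => yy H.F t * ((E t : ℝ) : ℂ)) := by
    refine Integrable.mono' ((integrable_poly_exp Ay hAy hd).const_mul Cy) ?_ ?_
    · exact (hycont.mul (Complex.continuous_ofReal.comp hEcont)).aestronglyMeasurable
    · refine Filter.Eventually.of_forall fun t => ?_
      rw [norm_mul, Complex.norm_real, Real.norm_eq_abs, abs_of_pos (Real.exp_pos _)]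
      calc ‖yy H.F t‖ * E t ≤ Cy * ((1 + |t|) ^ Ay * Real.exp (-(3 * Real.pi / 4 * |t|))) * E t :=
            mul_le_mul_of_nonneg_right (hyb t) (Real.exp_pos _).le
        _ ≤ Cy * ((1 + |t|) ^ Ay * Real.exp (-(3 * Real.pi / 4 * |t|))) * Real.exp ((3 * Real.pi / 4 - d) * |t|) := by
            apply mul_le_mul_of_nonneg_left _ (by positivity)
            apply Real.exp_le_exp.mpr
            exact mul_le_mul_of_nonneg_left (le_abs_self t) (by linarith)
        _ = Cy * ((1 + |t|) ^ Ay * Real.exp (-(d * |t|))) := by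
            rw [mul_assoc, mul_assoc, ← Real.exp_add]
            ring_nf
  have hsplit := integral_add_compl (measurableSet_Ioi (a := T1)) hint
  rw [compl_Ioi] at hsplit
  -- upper part
  have hup : 1 / 2 * cL * (∫ t in Ioi T1, ‖H.F (hf t)‖ * t ^ (-(3 / 4) : ℝ) * Real.exp (-(d * t))) ≤
      ‖∫ t in Ioi T1, yy H.F t * ((E t : ℝ) : ℂ)‖ := by
    have h1 : ((e : ℂ) * (starRingEnd ℂ) om0 * ∫ t in Ioi T1, yy H.F t * ((E t : ℝ) : ℂ)).re ≤
        ‖∫ t in Ioi T1, yy H.F t * ((E t : ℝ) : ℂ)‖ := by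
      refine (Complex.re_le_norm _).trans (le_of_eq ?_)
      have hnorm_e : ‖(e : ℂ)‖ = 1 := by
        rcases he with h | h <;> simp [h]
      rw [norm_mul, norm_mul, hnorm_e, RCLike.norm_conj, hom0, one_mul, one_mul]
    refine le_trans ?_ h1
    rw [← integral_const_mul ((e : ℂ) * (starRingEnd ℂ) om0)]
    have hint2 : IntegrableOn (fun t : ℝ => (e : ℂ) * (starRingEnd ℂ) om0 * (yy H.F t * ((E t : ℝ) : ℂ))) (Ioi T1) :=
      (hint.const_mul _).integrableOn
    have h2 : (∫ t in Ioi T1, (e : ℂ) * (starRingEnd ℂ) om0 * (yy H.F t * ((E t : ℝ) : ℂ))).re =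
        ∫ t in Ioi T1, ((e : ℂ) * (starRingEnd ℂ) om0 * (yy H.F t * ((E t : ℝ) : ℂ))).re := by
      have := integral_re hint2
      simpa using this.symm
    rw [h2, ← integral_const_mul]
    apply setIntegral_mono_on
    · exact (integrable_lower H.diff hA hg hT11 hd).const_mul _
    · exact hint2.re
    · exact measurableSet_Ioi
    · intro t ht
      have ht' : T1 ≤ t := le_of_lt ht
      have ht0 : 0 < t := by linarith
      have h3 := hpt t ht'
      have h4 := hlow t (hT1L.trans ht')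
      have h5 : ((e : ℂ) * (starRingEnd ℂ) om0 * (yy H.F t * ((E t : ℝ) : ℂ))).re =
          ((e : ℂ) * (starRingEnd ℂ) om0 * yy H.F t).re * E t := by
        rw [← mul_assoc, mul_comm, re_ofReal_mul, mul_comm]
      rw [h5]
      have h6 : ‖yy H.F t‖ = ‖H.F (hf t)‖ * ‖gam3 (hf t)‖ := by unfold yy; rw [norm_mul]
      calc 1 / 2 * cL * (‖H.F (hf t)‖ * t ^ (-(3 / 4) : ℝ) * Real.exp (-(d * t)))
          = 1 / 2 * (‖H.F (hf t)‖ * (cL * t ^ (-(3 / 4) : ℝ) * Real.exp (-(3 * Real.pi / 4 * t)))) * E t := by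
            rw [hE]
            have : Real.exp (-(d * t)) = Real.exp (-(3 * Real.pi / 4 * t)) * Real.exp ((3 * Real.pi / 4 - d) * t) := by
              rw [← Real.exp_add]; ring_nf
            rw [this]
            ring
        _ ≤ 1 / 2 * ‖yy H.F t‖ * E t := by
            rw [h6]
            apply mul_le_mul_of_nonneg_right _ (Real.exp_pos _).le
            apply mul_le_mul_of_nonneg_left _ (by norm_num)
            exact mul_le_mul_of_nonneg_left h4 (norm_nonneg _)
        _ ≤ _ := mul_le_mul_of_nonneg_right h3 (Real.exp_pos _).le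
  -- lower part
  have hlo : ‖∫ t in Iic T1, yy H.F t * ((E t : ℝ) : ℂ)‖ ≤ W := by
    refine (norm_integral_le_integral_norm _).trans ?_
    have hWi : Integrable fun t : ℝ => Cy * ((1 + |t|) ^ Ay * Real.exp (-(3 * Real.pi / 4 * |t|))) *
        Real.exp (3 * Real.pi / 4 * T1) :=
      ((integrable_poly_exp Ay hAy (by positivity)).const_mul Cy).mul_const _
    calc ∫ t in Iic T1, ‖yy H.F t * ((E t : ℝ) : ℂ)‖
        ≤ ∫ t in Iic T1, Cy * ((1 + |t|) ^ Ay * Real.exp (-(3 * Real.pi / 4 * |t|))) * Real.exp (3 * Real.pi / 4 * T1) := by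
          apply setIntegral_mono_on hint.norm.integrableOn hWi.integrableOn measurableSet_Iic
          intro t ht
          have ht' : t ≤ T1 := ht
          rw [norm_mul, Complex.norm_real, Real.norm_eq_abs, abs_of_pos (Real.exp_pos _)]
          apply mul_le_mul (hyb t) _ (Real.exp_pos _).le (by positivity)
          apply Real.exp_le_exp.mpr
          rcases le_or_gt 0 t with h0 | h0
          · calc (3 * Real.pi / 4 - d) * t ≤ (3 * Real.pi / 4) * t := mul_le_mul_of_nonneg_right (by linarith) h0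
              _ ≤ _ := mul_le_mul_of_nonneg_left ht' (by positivity)
          · have h1 : (3 * Real.pi / 4 - d) * t ≤ 0 := mul_nonpos_of_nonneg_of_nonpos (by linarith) h0.le
            have h2 : 0 ≤ 3 * Real.pi / 4 * T1 := by positivity
            linarith
      _ ≤ W := by
          rw [hW]
          apply setIntegral_le_integral hWi
          exact Filter.Eventually.of_forall fun t => by positivity
  calc 1 / 2 * cL * (∫ t in Ioi T1, ‖H.F (hf t)‖ * t ^ (-(3 / 4) : ℝ) * Real.exp (-(d * t)))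
      ≤ ‖∫ t in Ioi T1, yy H.F t * ((E t : ℝ) : ℂ)‖ := hup
    _ = ‖(∫ t : ℝ, yy H.F t * ((E t : ℝ) : ℂ)) - ∫ t in Iic T1, yy H.F t * ((E t : ℝ) : ℂ)‖ := by
        rw [← hsplit, add_sub_cancel_right]
    _ ≤ ‖∫ t : ℝ, yy H.F t * ((E t : ℝ) : ℂ)‖ + ‖∫ t in Iic T1, yy H.F t * ((E t : ℝ) : ℂ)‖ := norm_sub_le _ _
    _ ≤ _ := by linarith

end Pool.Agent.Helper83.BDF
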