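import Pool.Agent.Helper83.BDF.F4

/-!
MP_bd232a_nt, part F: `SumBound H` implies infinitely many zeros on the critical line.
-/

open Complex MeasureTheory Set Filter Topology

namespace Pool.Agent.Helper83.BDF

open Pool.Agent.Helper19.BD

theorem zeros_of_sumBound (H : HeckeF) (hS : SumBound H) : {s : ℂ | s.re = 1 / 2 ∧ H.F s = 0}.Infinite := by
  intro hfin
  obtain ⟨CS, δ, hδ, hSb⟩ := hS
  obtain ⟨CU, hU⟩ := hardy_upper H
  obtain ⟨c, C0, T1, hc, hT1, hL⟩ := hardy_lower H hfin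
  obtain ⟨A00, C, hg00⟩ := H.growth (1 / 2) 2
  obtain ⟨A, hA, hg⟩ := growth_nonneg hg00 (by norm_num)
  -- eta
  set η : ℝ := min (δ / 2) (1 / 8) with hη
  have hη0 : 0 < η := by rw [hη]; exact lt_min (by positivity) (by norm_num)
  have hη8 : η ≤ 1 / 8 := min_le_right _ _
  have hηδ : η ≤ δ / 2 := min_le_left _ _
  obtain ⟨c2, d0, hc2, hd0, h3⟩ := lower_int H.diff hA hg H.selberg.summable H.selberg.eq H.a_one hη0
    (by linarith) hT1
  have hCS : 0 ≤ CS := by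
    have h1 := (norm_nonneg _).trans (hSb 1 one_pos le_rfl)
    simpa using h1
  have hCU : 0 ≤ |CU| := abs_nonneg _
  -- combine
  have key : ∀ d : ℝ, 0 < d → d ≤ d0 → d ≤ 1 →
      c * c2 ≤ (|C0| + |CU|) * d ^ (1 / 4 - η) + |CU| * CS * d ^ (δ - η) := by
    intro d hd hdd0 hd1
    have h1 := h3 d hd hdd0
    have h2 := hL d hd hd1
    have h4 := hU d hd hd1
    have h5 := hSb d hd hd1
    have h6 : c * (c2 * d ^ (η - 1 / 4)) ≤ |C0| + |CU| + |CU| * (CS * d ^ (δ - 1 / 4)) := by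
      calc c * (c2 * d ^ (η - 1 / 4))
          ≤ c * (∫ t in Ioi T1, ‖H.F (hf t)‖ * t ^ (-(3 / 4) : ℝ) * Real.exp (-(d * t))) :=
            mul_le_mul_of_nonneg_left h1 hc.le
        _ ≤ C0 + ‖∫ t : ℝ, yy H.F t * ((Real.exp ((3 * Real.pi / 4 - d) * t) : ℝ) : ℂ)‖ := h2
        _ ≤ C0 + (CU + CU * ‖∑' n : ℕ, hterm H d n‖) := by linarith
        _ ≤ |C0| + (|CU| + |CU| * ‖∑' n : ℕ, hterm H d n‖) := by
            have e1 := le_abs_self C0
            have e2 := le_abs_self CU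
            have e3 : CU * ‖∑' n : ℕ, hterm H d n‖ ≤ |CU| * ‖∑' n : ℕ, hterm H d n‖ :=
              mul_le_mul_of_nonneg_right e2 (norm_nonneg _)
            linarith
        _ ≤ |C0| + (|CU| + |CU| * (CS * d ^ (δ - 1 / 4))) := by
            have := mul_le_mul_of_nonneg_left h5 hCU
            linarith
        _ = _ := by ring
    have h7 : 0 < d ^ (1 / 4 - η) := by positivity
    have h8 := mul_le_mul_of_nonneg_right h6 h7.le
    have h9 : d ^ (η - 1 / 4) * d ^ (1 / 4 - η) = 1 := by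
      rw [← Real.rpow_add hd, show η - 1 / 4 + (1 / 4 - η) = 0 by ring, Real.rpow_zero]
    have h10 : d ^ (δ - 1 / 4) * d ^ (1 / 4 - η) = d ^ (δ - η) := by
      rw [← Real.rpow_add hd]; congr 1; ring
    calc c * c2 = c * (c2 * d ^ (η - 1 / 4)) * d ^ (1 / 4 - η) := by
          rw [mul_assoc c, mul_assoc c2, h9, mul_one]
      _ ≤ (|C0| + |CU| + |CU| * (CS * d ^ (δ - 1 / 4))) * d ^ (1 / 4 - η) := h8
      _ = (|C0| + |CU|) * d ^ (1 / 4 - η) + |CU| * CS * (d ^ (δ - 1 / 4) * d ^ (1 / 4 - η)) := by ring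
      _ = _ := by rw [h10]
  have hlim : Tendsto (fun d : ℝ => (|C0| + |CU|) * d ^ (1 / 4 - η) + |CU| * CS * d ^ (δ - η)) (𝓝[>] 0) (𝓝 0) := by
    have e1 : Tendsto (fun d : ℝ => d ^ (1 / 4 - η)) (𝓝[>] 0) (𝓝 0) := by
      have := (Real.continuousAt_rpow_const 0 (1 / 4 - η) (Or.inr (by linarith))).tendsto
      rw [Real.zero_rpow (by linarith)] at this
      exact this.mono_left nhdsWithin_le_nhds
    have e2 : Tendsto (fun d : ℝ => d ^ (δ - η)) (𝓝[>] 0) (𝓝 0) := by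
      have := (Real.continuousAt_rpow_const 0 (δ - η) (Or.inr (by linarith))).tendsto
      rw [Real.zero_rpow (by linarith)] at this
      exact this.mono_left nhdsWithin_le_nhds
    have := (e1.const_mul (|C0| + |CU|)).add (e2.const_mul (|CU| * CS))
    simpa using this
  have hev : ∀ᶠ d : ℝ in 𝓝[>] 0, c * c2 ≤ (|C0| + |CU|) * d ^ (1 / 4 - η) + |CU| * CS * d ^ (δ - η) := by
    have h1 : ∀ᶠ d : ℝ in 𝓝[>] 0, d ∈ Ioo (0 : ℝ) (min d0 1) := Ioo_mem_nhdsGT (lt_min hd0 one_pos)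
    filter_upwards [h1] with d hd
    exact key d hd.1 (hd.2.le.trans (min_le_left _ _)) (hd.2.le.trans (min_le_right _ _))
  have := ge_of_tendsto hlim hev
  have : 0 < c * c2 := by positivity
  linarith

end Pool.Agent.Helper83.BDF
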